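import Pool.Agent.V1161.ZW.PolyW
import Pool.Agent.Y763.PS.Almost

/-!
# Many places and polynomial shifts, in almost all intervals of length `T ^ η`
-/

open Complex Filter Topology Set MeasureTheory
open scoped BigOperators

namespace Pool.Agent.Helper271.AlmostShift

open H370 Pool.Agent.TH342.CV Pool.Agent.V1161.ZW Pool.Agent.Y763.PS

/-- from the averages of the truncated counts at every place to the correlations at some `k` places -/
theorem places {k m N : ℕ} (hNp : 0 < N) (hkm : k + 1 ≤ m) {F : Fin m → ℂ → ℂ}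
    (hF : ∀ i, GoodL (F i)) {A w g l e p ε H : ℝ} (hA : 1 ≤ A) (hw0 : 0 < w) (hg0 : 0 < g)
    (hl0 : 0 < l) (hl1 : l ≤ 1) (he0 : 0 < e) (he1 : e ≤ 1 / 4) (hep : e ≤ p) (hp : 0 < p)
    (hε : 0 < ε) (heq : p ^ k - ε / 4 ≤ (p - e) ^ k) (hM : 4 * 2 ^ k * (k : ℝ) ^ 2 / ε ≤ m)
    {b : Fin m → ℝ} (hb : ∀ i, 0 ≤ b i) (hN1 : (N : ℝ) * w ≤ H) (hN2 : H - w < N * w)
    (hW2 : p ^ k * w ≤ ε / 2 * H)
    (havg : ∀ i, ∀ s ∈ Set.Icc (0 : ℝ) w, (p - e) * (g * N) ≤ ∑ j ∈ Finset.range N,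
      min (cnt (F i) (A + (b i + s) + j * w) (A + (b i + s) + (j + 1) * w) : ℝ)
        ((1 + e) * (l * g))) :
    ∃ a : Fin k → Fin m, Function.Injective a ∧
        (p ^ k - ε) * (g ^ k * H) ≤ ∫ t in A..(A + H), ∏ i,
          (cnt (F (a i)) (t + b (a i)) (t + b (a i) + w) : ℝ) := by
  classical
  have hm0 : (0 : ℝ) < m := by
    have : 0 < m := by omega
    exact_mod_cast this
  have hN' : (0 : ℝ) < N := by exact_mod_cast hNp
  have hH0 : 0 < H := lt_of_lt_of_le (by positivity) hN1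
  have hpk0 : 0 < p ^ k := pow_pos hp k
  -- the correlation functions
  set f : (Fin k → Fin m) → ℝ → ℝ := fun a t => ∏ i,
    (cnt (F (a i)) (t + b (a i)) (t + b (a i) + w) : ℝ) with hf
  have hf0 : ∀ a t, 0 ≤ f a t := fun a t => Finset.prod_nonneg fun i _ => Nat.cast_nonneg _
  have hint : ∀ a X Y, A ≤ X → X ≤ Y → IntervalIntegrable (f a) volume X Y := by
    intro a X Y h1 h2
    exact prod_int (F := fun i => F (a i)) (fun i => hF _) (b := fun i => b (a i)) (w := w)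
      (fun i => by linarith [hb (a i)]) h2
  set J := Finset.univ.filter (fun a : Fin k → Fin m => Function.Injective a) with hJ
  rcases le_or_gt (p ^ k - ε) 0 with hneg | hpos
  · obtain ⟨a, ha⟩ := inj_nonempty m k (by omega)
    refine ⟨a, (Finset.mem_filter.1 ha).2, ?_⟩
    have h1 : 0 ≤ ∫ t in A..(A + H), f a t :=
      intervalIntegral.integral_nonneg (by linarith) fun t _ => hf0 a t
    have h2 : (p ^ k - ε) * (g ^ k * H) ≤ 0 :=
      mul_nonpos_of_nonpos_of_nonneg hneg (by positivity)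
    exact h2.trans h1
  set K : ℝ := (1 + e) * (l * g) with hK
  have hK0 : 0 < K := by positivity
  set q : ℝ := (p - e) * g / K with hq
  have hq0 : 0 ≤ q := div_nonneg (mul_nonneg (by linarith) hg0.le) hK0.le
  have hKq : K * q = (p - e) * g := by rw [hq]; field_simp
  have hK2 : K ≤ 2 * g := by
    have h1 : (1 + e) * l ≤ 2 := by nlinarith
    calc K = ((1 + e) * l) * g := by rw [hK]; ring
      _ ≤ 2 * g := mul_le_mul_of_nonneg_right h1 hg0.le
  set c₀ : ℝ := p ^ k - ε / 2 with hc₀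
  have hc₀0 : 0 < c₀ := by rw [hc₀]; linarith
  have hkey : g ^ k * c₀ ≤ K ^ k * (q ^ k - (k : ℝ) ^ 2 / m) := by
    have h1 : K ^ k * q ^ k = (p - e) ^ k * g ^ k := by rw [← mul_pow, hKq, mul_pow]
    have h2 : K ^ k ≤ 2 ^ k * g ^ k := by
      rw [← mul_pow]; exact pow_le_pow_left₀ hK0.le hK2 k
    have h3 : 2 ^ k * ((k : ℝ) ^ 2 / m) ≤ ε / 4 := by
      rw [mul_div_assoc', div_le_iff₀ hm0]
      have h4 := hM
      rw [div_le_iff₀ hε] at h4
      linarith
    have h5 : K ^ k * ((k : ℝ) ^ 2 / m) ≤ g ^ k * (ε / 4) := by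
      calc K ^ k * ((k : ℝ) ^ 2 / m) ≤ (2 ^ k * g ^ k) * ((k : ℝ) ^ 2 / m) :=
            mul_le_mul_of_nonneg_right h2 (by positivity)
        _ = g ^ k * (2 ^ k * ((k : ℝ) ^ 2 / m)) := by ring
        _ ≤ g ^ k * (ε / 4) := mul_le_mul_of_nonneg_left h3 (by positivity)
    have h6 : (p ^ k - ε / 4) * g ^ k ≤ (p - e) ^ k * g ^ k :=
      mul_le_mul_of_nonneg_right heq (by positivity)
    have h7 : K ^ k * (q ^ k - (k : ℝ) ^ 2 / m) = (p - e) ^ k * g ^ k - K ^ k * ((k : ℝ) ^ 2 / m) := by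
      rw [mul_sub, h1]
    rw [h7]
    have h8 : g ^ k * c₀ = (p ^ k - ε / 4) * g ^ k - g ^ k * (ε / 4) := by rw [hc₀]; ring
    rw [h8]
    linarith
  -- the pointwise inequality
  have hpt : ∀ s ∈ Set.Icc (0 : ℝ) w, g ^ k * ((m : ℝ) ^ k * c₀ * N) ≤
      ∑ a ∈ J, ∑ j ∈ Finset.range N, f a (A + j * w + s) := by
    intro s hs
    set n : Fin m → ℕ → ℝ := fun i j =>
      (cnt (F i) (A + j * w + s + b i) (A + j * w + s + b i + w) : ℝ) with hn
    have hn0 : ∀ i j, 0 ≤ n i j := fun i j => Nat.cast_nonneg _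
    set x : Fin m → ℕ → ℝ := fun i j => min (n i j) K / K with hx
    have hx0 : ∀ i j, 0 ≤ x i j := fun i j => div_nonneg (le_min (hn0 i j) hK0.le) hK0.le
    have hx1 : ∀ i j, x i j ≤ 1 := fun i j => (div_le_one hK0).2 (min_le_right _ _)
    have hxs : ∀ i, q * N ≤ ∑ j ∈ Finset.range N, x i j := by
      intro i
      have h1 := havg i s hs
      have h2 : ∑ j ∈ Finset.range N, x i j =
          (∑ j ∈ Finset.range N, min (n i j) K) / K := by
        rw [Finset.sum_div]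
      rw [h2, le_div_iff₀ hK0]
      have h3 : q * N * K = (p - e) * (g * N) := by
        rw [mul_assoc, mul_comm (N : ℝ) K, ← mul_assoc, mul_comm q K, hKq]; ring
      rw [h3]
      refine h1.trans (le_of_eq (Finset.sum_congr rfl fun j _ => ?_))
      simp only [hn]
      have e1 : A + (b i + s) + j * w = A + j * w + s + b i := by ring
      have e2 : A + (b i + s) + (j + 1) * w = A + j * w + s + b i + w := by ring
      rw [e1, e2]
    have h4 := pattern_sum N m k hNp (by omega) (by omega) x hx0 hx1 q hq0 hxs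
    have h4' : g ^ k * ((m : ℝ) ^ k * c₀ * N) ≤ K ^ k * ((m : ℝ) ^ k * (q ^ k - (k : ℝ) ^ 2 / m) * N) := by
      have e1 : g ^ k * ((m : ℝ) ^ k * c₀ * N) = (g ^ k * c₀) * ((m : ℝ) ^ k * N) := by ring
      have e2 : K ^ k * ((m : ℝ) ^ k * (q ^ k - (k : ℝ) ^ 2 / m) * N) =
        (K ^ k * (q ^ k - (k : ℝ) ^ 2 / m)) * ((m : ℝ) ^ k * N) := by ring
      rw [e1, e2]
      exact mul_le_mul_of_nonneg_right hkey (by positivity)
    refine h4'.trans ((mul_le_mul_of_nonneg_left h4 (by positivity : 0 ≤ K ^ k)).trans ?_)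
    rw [Finset.mul_sum]
    apply Finset.sum_le_sum
    intro a _
    rw [Finset.mul_sum]
    apply Finset.sum_le_sum
    intro j _
    have e3 : K ^ k * ∏ i, x (a i) j = ∏ i, (K * x (a i) j) := by
      rw [Finset.prod_mul_distrib, Finset.prod_const, Finset.card_univ, Fintype.card_fin]
    rw [e3]
    apply Finset.prod_le_prod (fun i _ => mul_nonneg hK0.le (hx0 _ _))
    intro i _
    simp only [hx]
    rw [mul_div_cancel₀ _ hK0.ne']
    exact min_le_left _ _
  -- integration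
  have hTj : ∀ j : ℕ, A ≤ A + j * w := fun j => by
    have : 0 ≤ (j : ℝ) * w := by positivity
    linarith
  have hsplit : ∀ a, ∑ j ∈ Finset.range N, ∫ s in (0 : ℝ)..w, f a (A + j * w + s) =
      ∫ t in A..(A + N * w), f a t := by
    intro a
    have h1 := intervalIntegral.sum_integral_adjacent_intervals (f := f a) (μ := volume)
      (a := fun j : ℕ => A + j * w) (n := N) (fun j _ => hint a _ _ (hTj j) (by
        push_cast; linarith))
    simp only [Nat.cast_zero, zero_mul, add_zero] at h1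
    rw [← h1]
    apply Finset.sum_congr rfl
    intro j _
    rw [intervalIntegral.integral_comp_add_left]
    congr 1
    · ring
    · push_cast; ring
  have hI : w * (g ^ k * ((m : ℝ) ^ k * c₀ * N)) ≤ ∑ a ∈ J, ∫ t in A..(A + H), f a t := by
    have hii : ∀ a (j : ℕ), IntervalIntegrable (fun s => f a (A + j * w + s)) volume 0 w := by
      intro a j
      have h1 := (hint a (A + j * w) (A + j * w + w) (hTj j) (by linarith)).comp_add_left (A + j * w)
      simpa using h1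
    have h1 : ∫ _s in (0 : ℝ)..w, g ^ k * ((m : ℝ) ^ k * c₀ * N) ≤
        ∫ s in (0 : ℝ)..w, ∑ a ∈ J, ∑ j ∈ Finset.range N, f a (A + j * w + s) := by
      apply intervalIntegral.integral_mono_on hw0.le
      · exact intervalIntegrable_const
      · exact ii_sum _ _ (fun a _ => ii_sum _ _ (fun j _ => hii a j))
      · exact hpt
    rw [intervalIntegral.integral_const, sub_zero, smul_eq_mul] at h1
    refine h1.trans ?_
    rw [intervalIntegral.integral_finsetSum (fun a _ => ii_sum _ _ (fun j _ => hii a j))]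
    apply Finset.sum_le_sum
    intro a _
    rw [intervalIntegral.integral_finsetSum (fun j _ => hii a j), hsplit a]
    have h2 : A + N * w ≤ A + H := by linarith
    have h3 : A ≤ A + N * w := hTj N
    rw [← intervalIntegral.integral_add_adjacent_intervals (hint a A (A + N * w) le_rfl h3)
      (hint a (A + N * w) (A + H) h3 h2)]
    have h4 : 0 ≤ ∫ t in (A + N * w)..(A + H), f a t :=
      intervalIntegral.integral_nonneg h2 fun t _ => hf0 a t
    linarith
  -- the choice of the places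
  by_contra hcon
  push Not at hcon
  have hlt : ∑ a ∈ J, ∫ t in A..(A + H), f a t < ∑ _a ∈ J, (p ^ k - ε) * (g ^ k * H) :=
    Finset.sum_lt_sum_of_nonempty (inj_nonempty m k (by omega))
      fun a ha => hcon a (Finset.mem_filter.1 ha).2
  rw [Finset.sum_const, nsmul_eq_mul] at hlt
  have hJle : (J.card : ℝ) ≤ (m : ℝ) ^ k := card_inj_le m k
  have h8 : (J.card : ℝ) * ((p ^ k - ε) * (g ^ k * H)) ≤
      (m : ℝ) ^ k * ((p ^ k - ε) * (g ^ k * H)) :=
    mul_le_mul_of_nonneg_right hJle (by positivity)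
  have h9 : (p ^ k - ε) * H ≤ c₀ * (N * w) := by
    have h10 : c₀ * (H - w) ≤ c₀ * (N * w) := mul_le_mul_of_nonneg_left hN2.le hc₀0.le
    have h11 : c₀ * w ≤ p ^ k * w :=
      mul_le_mul_of_nonneg_right (by rw [hc₀]; linarith) hw0.le
    have h12 : (p ^ k - ε) * H = c₀ * (H - w) + c₀ * w - ε / 2 * H := by rw [hc₀]; ring
    linarith
  have h13 : (m : ℝ) ^ k * ((p ^ k - ε) * (g ^ k * H)) ≤ w * (g ^ k * ((m : ℝ) ^ k * c₀ * N)) := by
    have e1 : (m : ℝ) ^ k * ((p ^ k - ε) * (g ^ k * H)) =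
      ((m : ℝ) ^ k * g ^ k) * ((p ^ k - ε) * H) := by ring
    have e2 : w * (g ^ k * ((m : ℝ) ^ k * c₀ * N)) =
      ((m : ℝ) ^ k * g ^ k) * (c₀ * (N * w)) := by ring
    rw [e1, e2]
    exact mul_le_mul_of_nonneg_left h9 (by positivity)
  linarith

/-- from the averages of the truncated counts to the mean of the normalised function -/
theorem mean_tr' {N : ℕ} {F : ℂ → ℂ} (hF : GoodL F) {A w g l e p H A1 B1 : ℝ} (hA1 : 1 ≤ A1)
    (hAA : A1 ≤ A) (hw0 : 0 < w) (hg0 : 0 < g)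
    (hl0 : 0 < l) (he0 : 0 < e) (hep : e ≤ p)
    (hN1 : (N : ℝ) * w ≤ H) (hN2 : H - w < N * w) (hW2 : p * w ≤ e * H)
    (hB : A + H + w ≤ B1)
    (havg : ∀ s ∈ Set.Icc (0 : ℝ) w, (p - e) * (g * N) ≤ ∑ j ∈ Finset.range N,
      min (cnt F (A + s + j * w) (A + s + (j + 1) * w) : ℝ) ((1 + e) * (l * g))) :
    (p - 2 * e) * g / ((1 + e) * (l * g)) * H ≤ ∫ t in A..(A + H),
        tr F ((1 + e) * (l * g)) w A1 B1 t := by
  classical
  set K : ℝ := (1 + e) * (l * g) with hK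
  have hK0 : 0 < K := by positivity
  set φ : ℝ → ℝ := tr F K w A1 B1 with hφ
  have hφm : Measurable φ := tr_meas hF hA1
  have hφb : ∀ t, 0 ≤ φ t ∧ φ t ≤ 1 := fun t => tr_bdd F hK0 t
  have hii : ∀ X Y, IntervalIntegrable φ volume X Y := fun X Y =>
    Pool.Agent.V1161.VC.ii_bdd hφm hφb X Y
  have hNw : 0 ≤ (N : ℝ) * w := by positivity
  have hpt : ∀ s ∈ Set.Icc (0 : ℝ) w, (p - e) * g / K * N ≤
      ∑ j ∈ Finset.range N, φ (A + j * w + s) := by
    intro s hs
    have h1 := havg s hs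
    have h2 : ∑ j ∈ Finset.range N, φ (A + j * w + s) = (∑ j ∈ Finset.range N,
        min (cnt F (A + s + j * w) (A + s + (j + 1) * w) : ℝ) K) / K := by
      rw [Finset.sum_div]
      apply Finset.sum_congr rfl
      intro j hj
      have hjN : ((j : ℝ) + 1) * w ≤ N * w := by
        apply mul_le_mul_of_nonneg_right _ hw0.le
        exact_mod_cast Finset.mem_range.1 hj
      have hj0 : 0 ≤ (j : ℝ) * w := by positivity
      have hjN' : ((j : ℝ) + 1) * w = j * w + w := by ring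
      have hmem : A + j * w + s ∈ Set.Icc A1 B1 := by
        constructor
        · linarith [hs.1]
        · linarith [hs.2]
      simp only [hφ, tr]
      rw [Set.indicator_of_mem hmem]
      have e1 : A + s + j * w = A + j * w + s := by ring
      have e2 : A + s + (j + 1) * w = A + j * w + s + w := by ring
      rw [e1, e2]
    rw [h2, le_div_iff₀ hK0]
    have h3 : (p - e) * g / K * N * K = (p - e) * (g * N) := by
      rw [div_mul_eq_mul_div, div_mul_cancel₀ _ hK0.ne']; ring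
    rw [h3]
    exact h1
  have hsplit : ∑ j ∈ Finset.range N, ∫ s in (0 : ℝ)..w, φ (A + j * w + s) =
      ∫ t in A..(A + N * w), φ t := by
    have h1 := intervalIntegral.sum_integral_adjacent_intervals (f := φ) (μ := volume)
      (a := fun j : ℕ => A + j * w) (n := N) (fun j _ => hii _ _)
    simp only [Nat.cast_zero, zero_mul, add_zero] at h1
    rw [← h1]
    apply Finset.sum_congr rfl
    intro j _
    rw [intervalIntegral.integral_comp_add_left]
    congr 1
    · ring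
    · push_cast; ring
  have hii' : ∀ j : ℕ, IntervalIntegrable (fun s => φ (A + j * w + s)) volume 0 w := fun j =>
    Pool.Agent.V1161.VC.ii_bdd (hφm.comp (measurable_const_add _)) (fun t => hφb _) _ _
  have h1 : (p - e) * g / K * N * w ≤ ∫ t in A..(A + N * w), φ t := by
    rw [← hsplit, ← intervalIntegral.integral_finsetSum (fun j _ => hii' j)]
    have h2 : ∫ _s in (0 : ℝ)..w, (p - e) * g / K * N ≤
        ∫ s in (0 : ℝ)..w, ∑ j ∈ Finset.range N, φ (A + j * w + s) := by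
      apply intervalIntegral.integral_mono_on hw0.le
      · exact intervalIntegrable_const
      · exact ii_sum _ _ (fun j _ => hii' j)
      · exact hpt
    rw [intervalIntegral.integral_const, sub_zero, smul_eq_mul, mul_comm] at h2
    exact h2
  have h3 : ∫ t in A..(A + N * w), φ t ≤ ∫ t in A..(A + H), φ t := by
    rw [← intervalIntegral.integral_add_adjacent_intervals (hii A (A + N * w)) (hii (A + N * w) (A + H))]
    have h4 : 0 ≤ ∫ t in (A + N * w)..(A + H), φ t :=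
      intervalIntegral.integral_nonneg (by linarith) fun t _ => (hφb t).1
    linarith
  refine le_trans ?_ (h1.trans h3)
  have h5 : (p - e) * (H - w) ≤ (p - e) * (N * w) :=
    mul_le_mul_of_nonneg_left hN2.le (by linarith)
  have h6 : (p - e) * w ≤ p * w := mul_le_mul_of_nonneg_right (by linarith) hw0.le
  have h7 : (p - 2 * e) * H ≤ (p - e) * (N * w) := by
    have : (p - 2 * e) * H = (p - e) * (H - w) + (p - e) * w - e * H := by ring
    linarith
  have h8 : (p - 2 * e) * g / K * H = (p - 2 * e) * H * (g / K) := by ring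
  have h9 : (p - e) * g / K * N * w = (p - e) * (N * w) * (g / K) := by ring
  rw [h8, h9]
  exact mul_le_mul_of_nonneg_right h7 (by positivity)

/-- from the mean of the normalised function to the correlation at a polynomial distance -/
theorem poly' {d : ℕ} {N : ℕ} {c : ℝ} {F : ℂ → ℂ} (hF : GoodL F) {A w g l e p H A1 B1 ε : ℝ}
    (hA1 : 1 ≤ A1) (hg0 : 0 < g) (hl0 : 0 < l) (hl1 : l ≤ 1) (he0 : 0 < e)
    (he1 : e ≤ 1 / 8) (hep : 2 * e ≤ p) (hε : 0 < ε) (heq : p ^ 2 - ε / 2 ≤ (p - 2 * e) ^ 2)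
    (hH0 : 0 < H)
    (h6 : ∀ (a H : ℝ), 0 < H → ∀ f : ℝ → ℝ, Measurable f → (∀ t, 0 ≤ f t ∧ f t ≤ 1) →
      ∀ β : Fin d → ℝ, (∀ r, |β r| ≤ c * H) → ∃ n : ℕ, 1 ≤ n ∧ n ≤ N ∧
      (((∫ t in a..(a + H), f t) / H) ^ 2 - ε / 8) * H ≤
        ∫ t in a..(a + H), f t * f (t + ∑ r, β r * (n : ℝ) ^ ((r : ℕ) + 1)))
    (hq : (p - 2 * e) * g / ((1 + e) * (l * g)) * H ≤ ∫ t in A..(A + H),
        tr F ((1 + e) * (l * g)) w A1 B1 t)
    {β : Fin d → ℝ} (hβ : ∀ r, |β r| ≤ c * H)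
    (hS1 : ∀ n : ℕ, n ≤ N → |∑ r, β r * (n : ℝ) ^ ((r : ℕ) + 1)| ≤ A - 1) :
    ∃ n : ℕ, 1 ≤ n ∧ n ≤ N ∧
        (p ^ 2 - ε) * (g ^ 2 * H) ≤ ∫ t in A..(A + H),
          (cnt F t (t + w) : ℝ) *
          (cnt F (t + ∑ r, β r * (n : ℝ) ^ ((r : ℕ) + 1))
            (t + (∑ r, β r * (n : ℝ) ^ ((r : ℕ) + 1)) + w) : ℝ) := by
  classical
  set K : ℝ := (1 + e) * (l * g) with hK
  have hK0 : 0 < K := by positivity
  have hK2 : K ≤ 2 * g := by
    have h1 : (1 + e) * l ≤ 2 := by nlinarith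
    calc K = ((1 + e) * l) * g := by rw [hK]; ring
      _ ≤ 2 * g := mul_le_mul_of_nonneg_right h1 hg0.le
  set φ : ℝ → ℝ := tr F K w A1 B1 with hφ
  have hφm : Measurable φ := tr_meas hF hA1
  have hφb : ∀ t, 0 ≤ φ t ∧ φ t ≤ 1 := fun t => tr_bdd F hK0 t
  obtain ⟨n, hn1, hn2, h8⟩ := h6 A H hH0 φ hφm hφb β hβ
  refine ⟨n, hn1, hn2, ?_⟩
  have hSabs := hS1 n hn2
  set S : ℝ := ∑ r, β r * (n : ℝ) ^ ((r : ℕ) + 1) with hS
  set μ : ℝ := (∫ t in A..(A + H), φ t) / H with hμdef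
  have hμ : (p - 2 * e) * g / K ≤ μ := by
    rw [hμdef, le_div_iff₀ hH0]
    exact hq
  have hμ2 : (p - 2 * e) * g ≤ K * μ := by
    rw [div_le_iff₀ hK0] at hμ
    linarith
  have hsq : ((p - 2 * e) * g) ^ 2 ≤ (K * μ) ^ 2 :=
    pow_le_pow_left₀ (mul_nonneg (by linarith) hg0.le) hμ2 2
  have hK4 : K ^ 2 ≤ 4 * g ^ 2 := by
    have : K ^ 2 ≤ (2 * g) ^ 2 := pow_le_pow_left₀ hK0.le hK2 2
    linarith [this, (by ring : (2 * g) ^ 2 = 4 * g ^ 2)]
  have hlow : (p ^ 2 - ε) * g ^ 2 * H ≤ K ^ 2 * ∫ t in A..(A + H), φ t * φ (t + S) := by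
    have h9 : K ^ 2 * ((μ ^ 2 - ε / 8) * H) ≤ K ^ 2 * ∫ t in A..(A + H), φ t * φ (t + S) :=
      mul_le_mul_of_nonneg_left h8 (by positivity)
    refine le_trans ?_ h9
    have h10 : K ^ 2 * ((μ ^ 2 - ε / 8) * H) = ((K * μ) ^ 2 - K ^ 2 * (ε / 8)) * H := by ring
    rw [h10]
    apply mul_le_mul_of_nonneg_right _ hH0.le
    have h11 : K ^ 2 * (ε / 8) ≤ 4 * g ^ 2 * (ε / 8) :=
      mul_le_mul_of_nonneg_right hK4 (by positivity)
    have h12 : (p ^ 2 - ε / 2) * g ^ 2 ≤ (p - 2 * e) ^ 2 * g ^ 2 :=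
      mul_le_mul_of_nonneg_right heq (by positivity)
    have h13 : ((p - 2 * e) * g) ^ 2 = (p - 2 * e) ^ 2 * g ^ 2 := by ring
    have h14 : (p ^ 2 - ε) * g ^ 2 = (p ^ 2 - ε / 2) * g ^ 2 - 4 * g ^ 2 * (ε / 8) := by ring
    rw [h14]
    linarith
  -- comparison with the counts
  have hA : 1 ≤ A := by
    have := (abs_nonneg _).trans hSabs
    linarith
  have hci : IntervalIntegrable (fun t => (cnt F t (t + w) : ℝ) * (cnt F (t + S) (t + S + w) : ℝ))
      volume A (A + H) := by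
    have h9 := prod_int (k := 2) (F := fun _ => F) (fun _ => hF) (A := A) (B := A + H) (w := w)
      (b := ![0, S]) (by
        intro i
        fin_cases i
        · simp; linarith
        · simp; linarith [(abs_le.1 hSabs).1]) (by linarith)
    simp only [Fin.prod_univ_two, Matrix.cons_val_zero, Matrix.cons_val_one, add_zero] at h9
    exact h9
  have hmono : ∫ t in A..(A + H), φ t * φ (t + S) ≤
      ∫ t in A..(A + H), (1 / K ^ 2) * ((cnt F t (t + w) : ℝ) * (cnt F (t + S) (t + S + w) : ℝ)) := by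
    apply intervalIntegral.integral_mono_on (by linarith)
    · exact Pool.Agent.V1161.VC.ii_bdd (hφm.mul (hφm.comp (measurable_add_const S)))
        (fun t => ⟨mul_nonneg (hφb _).1 (hφb _).1, mul_le_one₀ (hφb _).2 (hφb _).1 (hφb _).2⟩) _ _
    · exact hci.const_mul _
    · intro t _
      calc φ t * φ (t + S) ≤ (cnt F t (t + w) : ℝ) / K * ((cnt F (t + S) (t + S + w) : ℝ) / K) :=
            mul_le_mul (tr_le F hK0 t) (tr_le F hK0 (t + S)) (hφb _).1
              (div_nonneg (Nat.cast_nonneg _) hK0.le)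
        _ = _ := by field_simp
  rw [intervalIntegral.integral_const_mul] at hmono
  have h10 : K ^ 2 * (∫ t in A..(A + H), φ t * φ (t + S)) ≤
      ∫ t in A..(A + H), ((cnt F t (t + w) : ℝ) * (cnt F (t + S) (t + S + w) : ℝ)) := by
    have h11 := mul_le_mul_of_nonneg_left hmono (by positivity : 0 ≤ K ^ 2)
    rwa [← mul_assoc, mul_one_div_cancel (by positivity), one_mul] at h11
  calc (p ^ 2 - ε) * (g ^ 2 * H) = (p ^ 2 - ε) * g ^ 2 * H := by ring
    _ ≤ _ := hlow.trans h10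

lemma win {H w : ℝ} (hH0 : 0 < H) (hw0 : 0 < w) : ∃ N : ℕ, (N : ℝ) * w ≤ H ∧ H - w < N * w := by
  refine ⟨⌊H / w⌋₊, ?_, ?_⟩
  · have := Nat.floor_le (div_nonneg hH0.le hw0.le)
    rwa [le_div_iff₀ hw0] at this
  · have := Nat.lt_floor_add_one (H / w)
    rw [div_lt_iff₀ hw0] at this
    linarith

/-- many places, almost all short intervals -/
theorem contA (k : ℕ) {η ε C : ℝ} (hη0 : 0 < η) (hη1 : η < 1)
    (hp : 0 < 2 - H295Iso.c0 ((1 + η) / 2)) (hε : 0 < ε) (hC : 0 ≤ C) :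
    ∃ M : ℕ, ∃ g : ℝ, 0 < g ∧
    ∀ (r : ℕ) (F : Fin r → ℂ → ℂ), (∀ i, GoodL (F i)) → (∀ i, Alm (F i)) →
      ∃ δ : ℝ, 0 < δ ∧ ∃ T₀ : ℝ, 10 ≤ T₀ ∧ ∀ T : ℝ, T₀ ≤ T →
      ∃ E : Set ℝ, volume E ≤ ENNReal.ofReal (T ^ (1 - δ)) ∧
      ∀ t : ℝ, T ≤ t → t ≤ 2 * T → t ∉ E → ∀ H : ℝ, T ^ η ≤ H → H ≤ T / 8 →
      ∀ m : ℕ, M ≤ m → ∀ (c : Fin m → Fin r) (b : Fin m → ℝ),
        (∀ i, 0 ≤ b i ∧ b i ≤ C * H ∧ b i ≤ T) →
      ∃ a : Fin k → Fin m, Function.Injective a ∧
        ((2 - H295Iso.c0 ((1 + η) / 2)) ^ k - ε) * (g ^ k * H) ≤ ∫ u in t..(t + H), ∏ i,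
          (cnt (F (c (a i))) (u + b (a i)) (u + b (a i) + g * (2 * Real.pi / Real.log T)) : ℝ) := by
  classical
  have hpi := Real.pi_pos
  set l : ℝ := (1 + η) / 2 with hl
  have hl0 : 0 < l := by rw [hl]; linarith
  have hl1 : l ≤ 1 := by rw [hl]; linarith
  set p : ℝ := 2 - H295Iso.c0 l with hpdef
  -- the parameters
  obtain ⟨e, he0, he1, hep, heq⟩ : ∃ e : ℝ, 0 < e ∧ e ≤ 1 / 4 ∧ e ≤ p ∧ p ^ k - ε / 4 ≤ (p - e) ^ k := by
    have hc : ContinuousAt (fun x : ℝ => (p - x) ^ k) 0 := by fun_prop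
    have h0 : (fun x : ℝ => (p - x) ^ k) 0 = p ^ k := by simp
    have h1 : ∀ᶠ x in 𝓝 (0 : ℝ), p ^ k - ε / 4 < (p - x) ^ k := by
      apply hc.eventually (lt_mem_nhds _)
      rw [h0]; linarith
    rw [Metric.eventually_nhds_iff] at h1
    obtain ⟨ρ, hρ0, hρ⟩ := h1
    refine ⟨min (min (ρ / 2) (1 / 4)) p, by positivity,
      (min_le_left _ _).trans (min_le_right _ _), min_le_right _ _, (hρ ?_).le⟩
    rw [Real.dist_eq, sub_zero, abs_of_pos (by positivity)]
    exact ((min_le_left _ _).trans (min_le_left _ _)).trans_lt (by linarith)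
  obtain ⟨M0, hM0⟩ := exists_nat_ge (4 * 2 ^ k * (k : ℝ) ^ 2 / ε)
  obtain ⟨g, hg0, hcore⟩ := avg_almost (η := η) (ε := e) (C := 2 * C + 1) hη0 hη1 he0 (by linarith)
    (by linarith)
  refine ⟨max M0 (k + 1), g, hg0, fun r F hF hA => ?_⟩
  choose δs hδs T1 hT1 hT1' using fun i => hcore (F i) (hF i) (hA i)
  obtain ⟨T2, hT2⟩ := (Set.finite_range T1).bddAbove
  have hT2' : ∀ i, T1 i ≤ T2 := fun i => hT2 ⟨i, rfl⟩
  -- a common exponent
  obtain ⟨δ, hδ0, hδle⟩ : ∃ δ : ℝ, 0 < δ ∧ ∀ i, 2 * δ ≤ δs i := by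
    rcases isEmpty_or_nonempty (Fin r) with hr | hr
    · exact ⟨1, one_pos, fun i => (hr.false i).elim⟩
    · refine ⟨(Finset.univ.inf' Finset.univ_nonempty δs) / 2, ?_, fun i => ?_⟩
      · have : 0 < Finset.univ.inf' Finset.univ_nonempty δs := by
          rw [Finset.lt_inf'_iff]
          exact fun i _ => hδs i
        linarith
      · have := Finset.inf'_le δs (Finset.mem_univ i)
        linarith
  set W : ℝ := 2 * Real.pi * g with hW
  have hW0 : 0 < W := by positivity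
  have ev1 : ∀ᶠ T : ℝ in atTop, (r : ℝ) ≤ T ^ δ := (tendsto_rpow_atTop hδ0).eventually_ge_atTop _
  have ev2 : ∀ᶠ T : ℝ in atTop, W * (2 + 2 * p ^ k / ε) ≤ T ^ η :=
    (tendsto_rpow_atTop hη0).eventually_ge_atTop _
  obtain ⟨T3, hT3⟩ := (ev1.and ev2).exists_forall_of_atTop
  refine ⟨δ, hδ0, max 10 (max (max T2 T3) (2 * W)), le_max_left _ _, fun T hT => ?_⟩
  have hT10 : 10 ≤ T := (le_max_left _ _).trans hT
  have hTT2 : T2 ≤ T := ((le_max_left _ _).trans ((le_max_left _ _).trans (le_max_right _ _))).trans hT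
  have hTT3 := hT3 T (((le_max_right _ _).trans ((le_max_left _ _).trans (le_max_right _ _))).trans hT)
  have hTW : 2 * W ≤ T := ((le_max_right _ _).trans (le_max_right _ _)).trans hT
  have hT0 : 0 < T := by linarith
  choose Es hE1 hE2 using fun i => hT1' i T ((hT2' i).trans hTT2)
  refine ⟨⋃ i, Es i, ?_, fun t ht1 ht2 htE H hH1 hH2 m hm c b hb => ?_⟩
  · calc volume (⋃ i, Es i) ≤ ∑ i, volume (Es i) := by
          have := measure_iUnion_le (μ := volume) Es
          rwa [tsum_fintype] at this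
      _ ≤ ∑ _i : Fin r, ENNReal.ofReal (T ^ (1 - 2 * δ)) := by
          apply Finset.sum_le_sum
          intro i _
          refine (hE1 i).trans (ENNReal.ofReal_le_ofReal ?_)
          exact Real.rpow_le_rpow_of_exponent_le (by linarith) (by linarith [hδle i])
      _ = ENNReal.ofReal (r * T ^ (1 - 2 * δ)) := by
          rw [Finset.sum_const, Finset.card_univ, Fintype.card_fin, nsmul_eq_mul,
            ENNReal.ofReal_mul (Nat.cast_nonneg _), ENNReal.ofReal_natCast]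
      _ ≤ ENNReal.ofReal (T ^ (1 - δ)) := by
          apply ENNReal.ofReal_le_ofReal
          have e1 : T ^ (1 - δ) = T ^ δ * T ^ (1 - 2 * δ) := by
            rw [← Real.rpow_add hT0]; congr 1; ring
          rw [e1]
          exact mul_le_mul_of_nonneg_right hTT3.1 (Real.rpow_nonneg hT0.le _)
  have hlog1 : 1 ≤ Real.log T := by
    rw [Real.le_log_iff_exp_le hT0]
    have := Real.exp_one_lt_d9
    linarith
  have hlog : 0 < Real.log T := by linarith
  have hkm : k + 1 ≤ m := (le_max_right _ _).trans hm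
  have hMm : (M0 : ℝ) ≤ m := by exact_mod_cast (le_max_left _ _).trans hm
  set w : ℝ := g * (2 * Real.pi / Real.log T) with hw
  have hw0 : 0 < w := by positivity
  have hwW : w ≤ W := by
    rw [hw, hW]
    have : 2 * Real.pi / Real.log T ≤ 2 * Real.pi := div_le_self (by positivity) hlog1
    calc g * (2 * Real.pi / Real.log T) ≤ g * (2 * Real.pi) :=
          mul_le_mul_of_nonneg_left this hg0.le
      _ = 2 * Real.pi * g := by ring
  have hTp : 0 < T ^ η := Real.rpow_pos_of_pos hT0 _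
  have hH0 : 0 < H := hTp.trans_le hH1
  have hpk0 : 0 < p ^ k := pow_pos hp k
  have hW1 : W ≤ 1 / 2 * T ^ η := by
    have h1 : 0 ≤ W * (2 * p ^ k / ε) := by positivity
    have h2 := hTT3.2
    have h3 : W * (2 + 2 * p ^ k / ε) = 2 * W + W * (2 * p ^ k / ε) := by ring
    linarith
  have hW2 : p ^ k * W ≤ ε / 2 * H := by
    have h2 := hTT3.2
    have h3 : W * (2 * p ^ k / ε) ≤ T ^ η := by
      have h4 : W * (2 + 2 * p ^ k / ε) = 2 * W + W * (2 * p ^ k / ε) := by ring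
      linarith
    have h5 : W * (2 * p ^ k / ε) = (p ^ k * W) * 2 / ε := by ring
    rw [h5, div_le_iff₀ hε] at h3
    have h6 : T ^ η * ε ≤ H * ε := mul_le_mul_of_nonneg_right hH1 hε.le
    linarith
  obtain ⟨N, hN1, hN2⟩ := win hH0 hw0
  have hNp : 0 < N := by
    have h1 : 0 < (N : ℝ) * w := by linarith
    have h2 : (0 : ℝ) < N := by
      by_contra h3
      push Not at h3
      have := mul_nonpos_of_nonpos_of_nonneg h3 hw0.le
      linarith
    exact_mod_cast h2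
  have hHN : H ≤ 2 * (N * w) := by linarith
  refine places hNp hkm (F := fun i => F (c i)) (fun i => hF _) (by linarith) hw0 hg0 hl0 hl1 he0 he1
    hep hp hε heq (hM0.trans hMm) (fun i => (hb i).1) hN1 hN2
    ((mul_le_mul_of_nonneg_left hwW hpk0.le).trans hW2) ?_
  intro i s hs
  have htE' : t ∉ Es (c i) := fun h => htE (Set.mem_iUnion.2 ⟨c i, h⟩)
  have hN1' : (1 : ℝ) ≤ N := by exact_mod_cast hNp
  have hwN : w ≤ N * w := le_mul_of_one_le_left hw0.le hN1'
  have hCH : C * H ≤ C * (2 * (N * w)) := mul_le_mul_of_nonneg_left hHN hC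
  have h1 := hE2 (c i) t ht1 ht2 htE' (b i + s) (add_nonneg (hb i).1 hs.1) N (by linarith)
    (by
      have h2 : (2 * C + 1) * (N * w) = C * (2 * (N * w)) + N * w := by ring
      rw [h2]
      linarith [(hb i).2.1, hs.2])
    (by linarith [(hb i).2.2, hs.2])
  exact h1

/-- polynomial shifts, almost all short intervals -/
theorem polyA (d : ℕ) {η ε : ℝ} (hη0 : 0 < η) (hη1 : η < 1)
    (hp : 0 < 2 - H295Iso.c0 ((1 + η) / 2)) (hε : 0 < ε) :
    ∃ (N : ℕ) (g c : ℝ), 1 ≤ N ∧ 0 < g ∧ 0 < c ∧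
    ∀ F : ℂ → ℂ, GoodL F → Alm F → ∃ δ : ℝ, 0 < δ ∧ ∃ T₀ : ℝ, 10 ≤ T₀ ∧ ∀ T : ℝ, T₀ ≤ T →
      ∃ E : Set ℝ, volume E ≤ ENNReal.ofReal (T ^ (1 - δ)) ∧
      ∀ t : ℝ, T ≤ t → t ≤ 2 * T → t ∉ E → ∀ H : ℝ, T ^ η ≤ H → H ≤ T / 8 →
      ∀ β : Fin d → ℝ, (∀ r, |β r| ≤ c * H) → ∃ n : ℕ, 1 ≤ n ∧ n ≤ N ∧
        ((2 - H295Iso.c0 ((1 + η) / 2)) ^ 2 - ε) * (g ^ 2 * H) ≤ ∫ u in t..(t + H),
          (cnt F u (u + g * (2 * Real.pi / Real.log T)) : ℝ) *
          (cnt F (u + ∑ r, β r * (n : ℝ) ^ ((r : ℕ) + 1))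
            (u + (∑ r, β r * (n : ℝ) ^ ((r : ℕ) + 1)) + g * (2 * Real.pi / Real.log T)) : ℝ) := by
  classical
  have hpi := Real.pi_pos
  set l : ℝ := (1 + η) / 2 with hl
  have hl0 : 0 < l := by rw [hl]; linarith
  have hl1 : l ≤ 1 := by rw [hl]; linarith
  set p : ℝ := 2 - H295Iso.c0 l with hpdef
  obtain ⟨e, he0, he1, hep, heq⟩ : ∃ e : ℝ, 0 < e ∧ e ≤ 1 / 8 ∧ 2 * e ≤ p ∧
      p ^ 2 - ε / 2 ≤ (p - 2 * e) ^ 2 := by
    have hc : ContinuousAt (fun x : ℝ => (p - 2 * x) ^ 2) 0 := by fun_prop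
    have h0 : (fun x : ℝ => (p - 2 * x) ^ 2) 0 = p ^ 2 := by simp
    have h1 : ∀ᶠ x in 𝓝 (0 : ℝ), p ^ 2 - ε / 2 < (p - 2 * x) ^ 2 := by
      apply hc.eventually (lt_mem_nhds _)
      rw [h0]; linarith
    rw [Metric.eventually_nhds_iff] at h1
    obtain ⟨ρ, hρ0, hρ⟩ := h1
    refine ⟨min (min (ρ / 2) (1 / 8)) (p / 2), by positivity,
      (min_le_left _ _).trans (min_le_right _ _), ?_, (hρ ?_).le⟩
    · have := min_le_right (min (ρ / 2) (1 / 8)) (p / 2)
      linarith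
    · rw [Real.dist_eq, sub_zero, abs_of_pos (by positivity)]
      exact ((min_le_left _ _).trans (min_le_left _ _)).trans_lt (by linarith)
  obtain ⟨g, hg0, hcore⟩ := avg_almost (η := η) (ε := e) (C := 1) hη0 hη1 he0 (by linarith)
    (by norm_num)
  obtain ⟨N, c, hN, hc, h6⟩ := Pool.Agent.V1161.VC.real_poly d (ε := ε / 8) (by positivity)
  set c' : ℝ := min c (1 / (2 * (d * (N : ℝ) ^ (d + 1) + 1))) with hc'
  have hc'0 : 0 < c' := lt_min hc (by positivity)
  refine ⟨N, g, c', hN, hg0, hc'0, fun F hF hA => ?_⟩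
  obtain ⟨δ, hδ0, T1, hT1, hT1'⟩ := hcore F hF hA
  set W : ℝ := 2 * Real.pi * g with hW
  have hW0 : 0 < W := by positivity
  obtain ⟨T3, hT3⟩ := ((tendsto_rpow_atTop hη0).eventually_ge_atTop
    (W * (2 + p / e))).exists_forall_of_atTop
  refine ⟨δ, hδ0, max 10 (max (max T1 T3) (2 * W)), le_max_left _ _, fun T hT => ?_⟩
  have hT10 : 10 ≤ T := (le_max_left _ _).trans hT
  have hTT1 : T1 ≤ T := ((le_max_left _ _).trans ((le_max_left _ _).trans (le_max_right _ _))).trans hT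
  have hTT3 := hT3 T (((le_max_right _ _).trans ((le_max_left _ _).trans (le_max_right _ _))).trans hT)
  have hTW : 2 * W ≤ T := ((le_max_right _ _).trans (le_max_right _ _)).trans hT
  have hT0 : 0 < T := by linarith
  obtain ⟨E, hE1, hE2⟩ := hT1' T hTT1
  refine ⟨E, hE1, fun t ht1 ht2 htE H hH1 hH2 β hβ => ?_⟩
  have hlog1 : 1 ≤ Real.log T := by
    rw [Real.le_log_iff_exp_le hT0]
    have := Real.exp_one_lt_d9
    linarith
  have hlog : 0 < Real.log T := by linarith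
  set w : ℝ := g * (2 * Real.pi / Real.log T) with hw
  have hw0 : 0 < w := by positivity
  have hwW : w ≤ W := by
    rw [hw, hW]
    have : 2 * Real.pi / Real.log T ≤ 2 * Real.pi := div_le_self (by positivity) hlog1
    calc g * (2 * Real.pi / Real.log T) ≤ g * (2 * Real.pi) :=
          mul_le_mul_of_nonneg_left this hg0.le
      _ = 2 * Real.pi * g := by ring
  have hTp : 0 < T ^ η := Real.rpow_pos_of_pos hT0 _
  have hH0 : 0 < H := hTp.trans_le hH1
  have hW1 : W ≤ 1 / 2 * T ^ η := by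
    have h1 : 0 ≤ W * (p / e) := by positivity
    have h3 : W * (2 + p / e) = 2 * W + W * (p / e) := by ring
    linarith
  have hW2 : p * W ≤ e * H := by
    have h3 : W * (p / e) ≤ T ^ η := by
      have h4 : W * (2 + p / e) = 2 * W + W * (p / e) := by ring
      linarith
    have h5 : W * (p / e) = (p * W) / e := by ring
    rw [h5, div_le_iff₀ he0] at h3
    have h6 : T ^ η * e ≤ H * e := mul_le_mul_of_nonneg_right hH1 he0.le
    linarith
  obtain ⟨Nw, hN1, hN2⟩ := win hH0 hw0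
  have hNp : 0 < Nw := by
    have h1 : 0 < (Nw : ℝ) * w := by linarith
    have h2 : (0 : ℝ) < Nw := by
      by_contra h3
      push Not at h3
      have := mul_nonpos_of_nonpos_of_nonneg h3 hw0.le
      linarith
    exact_mod_cast h2
  have hN1' : (1 : ℝ) ≤ Nw := by exact_mod_cast hNp
  have hwN : w ≤ Nw * w := le_mul_of_one_le_left hw0.le hN1'
  have hmean := mean_tr' (N := Nw) hF (A := t) (w := w) (g := g) (l := l) (e := e) (p := p) (H := H)
    (A1 := T / 2) (B1 := 4 * T) (by linarith) (by linarith) hw0 hg0 hl0 he0 (by linarith) hN1 hN2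
    ((mul_le_mul_of_nonneg_left hwW hp.le).trans hW2) (by linarith)
    (by
      intro s hs
      have h1 := hE2 t ht1 ht2 htE s hs.1 Nw (by linarith) (by rw [one_mul]; linarith [hs.2])
        (by linarith [hs.2])
      exact h1)
  refine poly' hF (A := t) (w := w) (g := g) (l := l) (e := e) (p := p) (H := H)
    (A1 := T / 2) (B1 := 4 * T) (ε := ε) (N := N) (c := c) (by linarith) hg0 hl0 hl1 he0 he1 hep hε
    heq hH0 h6 hmean (fun r => (hβ r).trans (mul_le_mul_of_nonneg_right (min_le_left _ _) hH0.le)) ?_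
  intro n hn2
  calc |∑ r, β r * (n : ℝ) ^ ((r : ℕ) + 1)| ≤ ∑ r, |β r * (n : ℝ) ^ ((r : ℕ) + 1)| :=
        Finset.abs_sum_le_sum_abs _ _
    _ ≤ ∑ _r : Fin d, (c' * H) * (N : ℝ) ^ (d + 1) := by
        apply Finset.sum_le_sum
        intro r _
        rw [abs_mul, abs_pow, Nat.abs_cast]
        apply mul_le_mul (hβ r) _ (by positivity) (by positivity)
        have h9 : n ^ ((r : ℕ) + 1) ≤ N ^ (d + 1) :=
          (Nat.pow_le_pow_left hn2 _).trans (Nat.pow_le_pow_right hN (by omega))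
        exact_mod_cast h9
    _ = (d * (N : ℝ) ^ (d + 1)) * c' * H := by
        rw [Finset.sum_const, Finset.card_univ, Fintype.card_fin, nsmul_eq_mul]; ring
    _ ≤ 1 / 2 * H := by
        apply mul_le_mul_of_nonneg_right _ hH0.le
        have h9 : c' ≤ 1 / (2 * (d * (N : ℝ) ^ (d + 1) + 1)) := min_le_right _ _
        rw [le_div_iff₀ (by positivity)] at h9
        nlinarith
    _ ≤ t - 1 := by linarith

end Pool.Agent.Helper271.AlmostShift
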