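import Pool.Agent.Y771.NF.Lam
import Pool.Agent.TH803.LU.EC

/-!
# The Laguerre inequalities for newforms of trivial character

No bound for the Satake parameters is used: the Euler product is controlled to the right of the line
`Re s = 1` (unitary normalisation) by the Rankin-Selberg method (modules `Pool.Agent.Y771`).
-/

set_option autoImplicit false

namespace Pool.Agent.Helper271.LagNF

open UpperHalfPlane hiding I
open MatrixGroups CongruenceSubgroup Filter Topology Complex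
open Pool.Agent.Y771.NF Pool.Agent.TH803.LU Pool.Agent.W355.UN Pool.Agent.Y671.GL
open scoped ComplexConjugate

variable {N : ℕ} [NeZero N] {k : ℕ} {f : CuspForm (Gamma0 N : Subgroup (GL (Fin 2) ℝ)) (k : ℤ)} {ε : ℝ}

/-- the completed function near the point at height `t` of the critical line -/
noncomputable def cen (f : CuspForm (Gamma0 N : Subgroup (GL (Fin 2) ℝ)) (k : ℤ)) (t : ℝ) (w : ℂ) : ℂ :=
  Lam f ((k : ℂ) / 2 + t * I + w)

lemma cen_diff (hk : 1 ≤ k) (hf : W388.IsNewf N k f ε) (t : ℝ) : Differentiable ℂ (cen f t) :=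
  (Lam_diff hk hf).comp (by fun_prop : Differentiable ℂ fun w : ℂ => (k : ℂ) / 2 + t * I + w)

lemma cen_fe (hk : 1 ≤ k) (hf : W388.IsNewf N k f ε) (t : ℝ) : FE0 (cen f t) := by
  refine ⟨(ε : ℂ), ?_, fun w => ?_⟩
  · rcases hf.sign with h | h <;> simp [h]
  · have h1 := Lam_fe hk hf ((k : ℂ) / 2 + t * I + w)
    have h2 := Lam_conj hf ((k : ℂ) / 2 + t * I + -conj w)
    have h3 : conj ((k : ℂ) / 2 + t * I + -conj w) = (k : ℂ) - ((k : ℂ) / 2 + t * I + w) := by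
      simp only [map_add, map_mul, map_div₀, map_ofNat, map_neg, Complex.conj_ofReal, Complex.conj_I,
        Complex.conj_conj, map_natCast]
      ring
    unfold cen
    rw [← h2, h3, h1, ← mul_assoc]
    have h4 : (ε : ℂ) * (ε : ℂ) = 1 := by
      rcases hf.sign with h | h <;> simp [h]
    rw [h4, one_mul]

theorem data (hk : 1 ≤ k) (hf : W388.IsNewf N k f ε) : ∃ (u : ℂ) (B : ℝ → ℝ) (L : ℂ → ℂ), u ≠ 0 ∧
    UL 2 B (N : ℝ) 0 (muk k) (fun s => Xf f u (s - 1 / 2)) L := by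
  obtain ⟨u, hu, hue⟩ := exists_unit hf
  obtain ⟨Z, hFE, hL⟩ := exists_Z hk hf
  obtain ⟨B, r, hUL⟩ := ul_of hk hf hu hue hFE hL
  exact ⟨u, B, _, hu, hUL⟩

lemma LC_cen (hk : 1 ≤ k) (hf : W388.IsNewf N k f ε) (u : ℂ) (t : ℝ) (n : ℕ) :
    LC (sh (fun s => Xf f u (s - 1 / 2)) t) n = ‖u‖ ^ 2 * LC (cen f t) n := by
  have e : sh (fun s => Xf f u (s - 1 / 2)) t = fun w => u * cen f t w := by
    funext w
    have h : (k : ℂ) / 2 + (1 / 2 + t * I + w - 1 / 2) = (k : ℂ) / 2 + t * I + w := by ring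
    show u * Lam f ((k : ℂ) / 2 + (1 / 2 + t * I + w - 1 / 2)) = u * Lam f ((k : ℂ) / 2 + t * I + w)
    rw [h]
  rw [e]
  exact LC_const_mul (cen_diff hk hf t) u n

omit [NeZero N] in
lemma zero_iff {u : ℂ} (hu : u ≠ 0) (σ : ℝ) :
    (∀ s : ℂ, Xf f u (s - 1 / 2) = 0 → s.re ≤ 1 / 2 + σ) ↔
      ∀ s : ℂ, Lam f s = 0 → s.re ≤ (k : ℝ) / 2 + σ := by
  have hkr : ((k : ℂ) / 2).re = (k : ℝ) / 2 := by
    rw [show ((k : ℂ) / 2) = (((k : ℝ) / 2 : ℝ) : ℂ) by push_cast; ring, Complex.ofReal_re]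
  have hhr : ((1 : ℂ) / 2).re = 1 / 2 := by norm_num
  constructor
  · intro h s hs
    have h1 := h (s - (k : ℂ) / 2 + 1 / 2) (by
      unfold Xf
      rw [add_sub_cancel_right, add_sub_cancel, hs, mul_zero])
    rw [Complex.add_re, Complex.sub_re, hkr, hhr] at h1
    linarith
  · intro h s hs
    unfold Xf at hs
    have h1 := h _ ((mul_eq_zero.1 hs).resolve_left hu)
    rw [Complex.add_re, Complex.sub_re, hkr, hhr] at h1
    linarith

omit [NeZero N] in
lemma line_iff {u : ℂ} (hu : u ≠ 0) :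
    (∀ s : ℂ, Xf f u (s - 1 / 2) = 0 → s.re = 1 / 2) ↔
      ∀ s : ℂ, Lam f s = 0 → s.re = (k : ℝ) / 2 := by
  have hkr : ((k : ℂ) / 2).re = (k : ℝ) / 2 := by
    rw [show ((k : ℂ) / 2) = (((k : ℝ) / 2 : ℝ) : ℂ) by push_cast; ring, Complex.ofReal_re]
  have hhr : ((1 : ℂ) / 2).re = 1 / 2 := by norm_num
  constructor
  · intro h s hs
    have h1 := h (s - (k : ℂ) / 2 + 1 / 2) (by
      unfold Xf
      rw [add_sub_cancel_right, add_sub_cancel, hs, mul_zero])
    rw [Complex.add_re, Complex.sub_re, hkr, hhr] at h1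
    linarith
  · intro h s hs
    unfold Xf at hs
    have h1 := h _ ((mul_eq_zero.1 hs).resolve_left hu)
    rw [Complex.add_re, Complex.sub_re, hkr, hhr] at h1
    linarith

/-- the positivity from the two ranges -/
lemma combine {P : ℕ → ℝ → Prop} {lc : ℝ → ℝ} {D c1 c K : ℝ} (hc1 : 0 < c1)
    (hK : 0 < K) (hc : 0 ≤ c) (hlc : ∀ t, lc t ≤ D + 2 * Real.log (1 + |t|))
    (habs : ∀ (t : ℝ) (n : ℕ), c1 * (2 + lc t) ≤ n → P n t)
    (hsh : ∀ (t : ℝ) (n : ℕ), K ≤ lc t → c * lc t ≤ n → P n t) :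
    ∀ (n : ℕ) (t : ℝ), 2 * c * Real.log (1 + |t|) + (c * |D| + c1 * (2 + K)) ≤ n → P n t := by
  intro n t hn
  have hlog : 0 ≤ Real.log (1 + |t|) := Real.log_nonneg (by linarith [abs_nonneg t])
  have hD := le_abs_self D
  have hD0 := abs_nonneg D
  rcases le_or_gt K (lc t) with h | h
  · refine hsh t n h (le_trans ?_ hn)
    have h1 : c * lc t ≤ c * (|D| + 2 * Real.log (1 + |t|)) :=
      mul_le_mul_of_nonneg_left ((hlc t).trans (by linarith)) hc
    have h2 : 0 ≤ c1 * (2 + K) := by positivity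
    linarith
  · refine habs t n (le_trans ?_ hn)
    have h1 : c1 * (2 + lc t) ≤ c1 * (2 + K) := mul_le_mul_of_nonneg_left (by linarith) hc1.le
    have h2 : 0 ≤ 2 * c * Real.log (1 + |t|) := by positivity
    have h3 : 0 ≤ c * |D| := by positivity
    linarith

lemma cond_nonneg (t : ℝ) : 0 ≤ Real.log (Pool.Agent.W355.UN.cond (N : ℝ) (muk k) t) := by
  have hN : (1 : ℝ) ≤ N := by exact_mod_cast Nat.one_le_iff_ne_zero.2 (NeZero.ne N)
  apply Real.log_nonneg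
  unfold Pool.Agent.W355.UN.cond
  rw [Fin.prod_univ_two]
  have h0 : (1 : ℝ) ≤ 1 + ‖(t : ℂ) * I - muk k 0‖ := by linarith [norm_nonneg ((t : ℂ) * I - muk k 0)]
  have h1 : (1 : ℝ) ≤ 1 + ‖(t : ℂ) * I - muk k 1‖ := by linarith [norm_nonneg ((t : ℂ) * I - muk k 1)]
  calc (1 : ℝ) = 1 * (1 * 1) := by norm_num
    _ ≤ _ := by gcongr

/-- **The Laguerre inequalities for newforms.** -/
theorem lag (hk : 1 ≤ k) (hf : W388.IsNewf N k f ε) {η : ℝ} (hη : 0 < η) : ∃ C : ℝ, 0 < C ∧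
    (∀ (n : ℕ) (t : ℝ), (1 / 2 + η) * Real.log (1 + |t|) + C ≤ n → 0 < LC (cen f t) n) ∧
    ((∀ s : ℂ, Lam f s = 0 → s.re = (k : ℝ) / 2) ↔
      ∀ (n : ℕ) (t : ℝ), (n : ℝ) < (1 / 2 + η) * Real.log (1 + |t|) + C → 0 ≤ LC (cen f t) n) := by
  obtain ⟨u, B, L, hu, hUL⟩ := data hk hf
  have hu2 : 0 < ‖u‖ ^ 2 := by positivity
  obtain ⟨c1, hc1, HC⟩ := abs_pos (hUL.hB 1)
  obtain ⟨K, hK, HK⟩ := sharp_pos (B := B) (θ := 0) (η := min (η / 2) 1) hUL.hB le_rfl (by norm_num)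
    (by positivity) (min_le_right _ _)
  obtain ⟨D, hD⟩ : ∃ D : ℝ, D = Real.log N + 2 * Real.log (2 + k) := ⟨_, rfl⟩
  obtain ⟨c, hcdef⟩ : ∃ c : ℝ, c = 1 / 4 + min (η / 2) 1 := ⟨_, rfl⟩
  have hm : 0 < min (η / 2) 1 := by positivity
  have hc : 0 ≤ c := by rw [hcdef]; positivity
  have main := combine (P := fun n t => 0 < LC (cen f t) n)
    (lc := fun t => Real.log (Pool.Agent.W355.UN.cond (N : ℝ) (muk k) t)) (D := D) (c1 := c1) (c := c) (K := K * 2)
    hc1 (by positivity) hc (fun t => by rw [hD]; exact cond_le hk t)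
    (fun t n h => by
      have h1 := HC 2 (N : ℝ) 0 (muk k) _ L hUL (by norm_num) t n (by push_cast; exact h)
      rw [LC_cen hk hf] at h1
      exact (mul_pos_iff_of_pos_left hu2).1 h1)
    (fun t n h h' => by
      have h1 := HK 2 (N : ℝ) (muk k) _ L hUL t n (by push_cast; exact h) (by
        refine le_trans (le_of_eq ?_) h'
        rw [hcdef]
        norm_num)
      rw [LC_cen hk hf] at h1
      exact (mul_pos_iff_of_pos_left hu2).1 h1)
  have hpos : 0 < c * |D| + c1 * (2 + K * 2) := by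
    have := abs_nonneg D
    positivity
  have key : ∀ (n : ℕ) (t : ℝ), (1 / 2 + η) * Real.log (1 + |t|) + (c * |D| + c1 * (2 + K * 2)) ≤ n →
      0 < LC (cen f t) n := by
    intro n t hn
    refine main n t (le_trans ?_ hn)
    have hlog : 0 ≤ Real.log (1 + |t|) := Real.log_nonneg (by linarith [abs_nonneg t])
    have h2 : 2 * c ≤ 1 / 2 + η := by
      have := min_le_left (η / 2) 1
      rw [hcdef]
      linarith
    have := mul_le_mul_of_nonneg_right h2 hlog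
    linarith
  refine ⟨c * |D| + c1 * (2 + K * 2), hpos, key, ?_⟩
  rw [← line_iff hu, rh_iff_lag hUL]
  have hLC : ∀ (n : ℕ) (t : ℝ), 0 ≤ LC (sh (fun s => Xf f u (s - 1 / 2)) t) n ↔ 0 ≤ LC (cen f t) n := by
    intro n t
    rw [LC_cen hk hf]
    exact mul_nonneg_iff_of_pos_left hu2
  constructor
  · intro h n t _
    exact (hLC n t).1 (h n t)
  · intro h n t
    rw [hLC]
    rcases lt_or_ge (n : ℝ) ((1 / 2 + η) * Real.log (1 + |t|) + (c * |D| + c1 * (2 + K * 2))) with h1 | h1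
    · exact h n t h1
    · exact (key n t h1).le

/-- with a zero-free half-plane -/
theorem zf (hk : 1 ≤ k) (hf : W388.IsNewf N k f ε) {η ϑ : ℝ} (hη : 0 < η) (hϑ : 0 ≤ ϑ)
    (hϑ1 : ϑ ≤ 1 / 2) (hz : ∀ s : ℂ, Lam f s = 0 → s.re ≤ (k : ℝ) / 2 + ϑ) : ∃ C : ℝ, 0 < C ∧
    ∀ (n : ℕ) (t : ℝ), (ϑ + η) * Real.log (1 + |t|) + C ≤ n → 0 < LC (cen f t) n := by
  obtain ⟨u, B, L, hu, hUL⟩ := data hk hf
  have hu2 : 0 < ‖u‖ ^ 2 := by positivity
  obtain ⟨c1, hc1, HC⟩ := abs_pos (hUL.hB 1)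
  obtain ⟨K, hK, HK⟩ := zf_pos (B := B) (η := min (η / 2) 1) hUL.hB hϑ hϑ1
    (by positivity) (min_le_right _ _) 2
  obtain ⟨D, hD⟩ : ∃ D : ℝ, D = Real.log N + 2 * Real.log (2 + k) := ⟨_, rfl⟩
  obtain ⟨c, hcdef⟩ : ∃ c : ℝ, c = ϑ / 2 + min (η / 2) 1 := ⟨_, rfl⟩
  have hm : 0 < min (η / 2) 1 := by positivity
  have hc : 0 ≤ c := by rw [hcdef]; positivity
  have main := combine (P := fun n t => 0 < LC (cen f t) n)
    (lc := fun t => Real.log (Pool.Agent.W355.UN.cond (N : ℝ) (muk k) t)) (D := D) (c1 := c1) (c := c) (K := K)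
    hc1 (by positivity) hc (fun t => by rw [hD]; exact cond_le hk t)
    (fun t n h => by
      have h1 := HC 2 (N : ℝ) 0 (muk k) _ L hUL (by norm_num) t n (by push_cast; exact h)
      rw [LC_cen hk hf] at h1
      exact (mul_pos_iff_of_pos_left hu2).1 h1)
    (fun t n h h' => by
      have h1 := HK (N : ℝ) (muk k) _ L hUL ((zero_iff hu ϑ).2 hz) t n h (by
        refine le_trans (le_of_eq ?_) h'
        rw [hcdef])
      rw [LC_cen hk hf] at h1
      exact (mul_pos_iff_of_pos_left hu2).1 h1)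
  have hpos : 0 < c * |D| + c1 * (2 + K) := by
    have := abs_nonneg D
    positivity
  refine ⟨c * |D| + c1 * (2 + K), hpos, fun n t hn => main n t (le_trans ?_ hn)⟩
  have hlog : 0 ≤ Real.log (1 + |t|) := Real.log_nonneg (by linarith [abs_nonneg t])
  have h2 : 2 * c ≤ ϑ + η := by
    have := min_le_left (η / 2) 1
    rw [hcdef]
    linarith
  have := mul_le_mul_of_nonneg_right h2 hlog
  linarith

end Pool.Agent.Helper271.LagNF
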