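import Mathlib

/-!
# Borel-Cantelli along rays
-/

set_option autoImplicit false

open Filter Topology MeasureTheory Set

namespace Pool.Agent.Helper271.Rays

lemma tendsto_of {v : ℕ → ℝ} {δ : ℝ} (hδ : 0 < δ) (hv : ∀ n, 1 ≤ v n)
    (hs : Summable (fun n => (v n) ^ (-δ))) : Tendsto v atTop atTop := by
  have h1 := hs.tendsto_atTop_zero
  rw [tendsto_atTop]
  intro b
  have hb : (0 : ℝ) < (max b 1) ^ (-δ) := by positivity
  filter_upwards [h1.eventually (gt_mem_nhds hb)] with n hn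
  by_contra hcon
  push Not at hcon
  have h2 : v n ≤ max b 1 := hcon.le.trans (le_max_left _ _)
  have h3 := Real.rpow_le_rpow_of_nonpos (lt_of_lt_of_le one_pos (hv n)) h2 (by linarith : -δ ≤ 0)
  linarith

/-- almost every ray avoids, along a sequence of scales, small subsets of the cubes -/
theorem bc {ι : Type} [Fintype ι] {B : ℝ → Set (ι → ℝ)} {δ T₀ : ℝ} (hδ : 0 < δ)
    (hB : ∀ T, T₀ ≤ T → volume (B T) ≤ ENNReal.ofReal (T ^ ((Fintype.card ι : ℝ) - δ)))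
    {v : ℕ → ℝ} (hv : ∀ n, 1 ≤ v n) (hs : Summable (fun n => (v n) ^ (-δ))) {M : ℝ} (hM : 1 ≤ M) :
    ∀ᵐ ω : ι → ℝ, ∀ᶠ n in atTop, v n • ω ∉ B (M * v n) := by
  have htv := tendsto_of hδ hv hs
  obtain ⟨N₀, hN₀⟩ := eventually_atTop.1 (htv.eventually_ge_atTop T₀)
  set s : ℕ → Set (ι → ℝ) := fun n => (fun ω => v (n + N₀) • ω) ⁻¹' (B (M * v (n + N₀))) with hsdef
  set d : ℕ := Fintype.card ι with hd
  have hvol : ∀ n, volume (s n) ≤ ENNReal.ofReal (M ^ ((d : ℝ) - δ) * (v (n + N₀)) ^ (-δ)) := by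
    intro n
    have h0 := hN₀ (n + N₀) (by omega)
    have hv1 := hv (n + N₀)
    have hvp : 0 < v (n + N₀) := lt_of_lt_of_le one_pos hv1
    have hMp : 0 < M := lt_of_lt_of_le one_pos hM
    have hT : T₀ ≤ M * v (n + N₀) := by
      refine h0.trans ?_
      nlinarith
    rw [hsdef]
    simp only
    rw [Measure.addHaar_preimage_smul volume hvp.ne', Module.finrank_fintype_fun_eq_card]
    refine (mul_le_mul_right (hB _ hT) _).trans ?_
    rw [← ENNReal.ofReal_mul (abs_nonneg _)]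
    apply ENNReal.ofReal_le_ofReal
    rw [abs_of_pos (inv_pos.2 (pow_pos hvp _)), ← Real.rpow_natCast, ← Real.rpow_neg hvp.le,
      Real.mul_rpow hMp.le hvp.le]
    apply le_of_eq
    have e : (v (n + N₀)) ^ (-(d : ℝ)) * (v (n + N₀)) ^ ((d : ℝ) - δ) = (v (n + N₀)) ^ (-δ) := by
      rw [← Real.rpow_add hvp]
      congr 1
      ring
    rw [← e]
    ring
  have hsum : ∑' n, volume (s n) ≠ ⊤ := by
    have h1 : Summable fun n => M ^ ((d : ℝ) - δ) * (v (n + N₀)) ^ (-δ) :=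
      ((summable_nat_add_iff N₀).2 hs).mul_left _
    exact ne_top_of_le_ne_top h1.tsum_ofReal_ne_top (ENNReal.tsum_le_tsum hvol)
  filter_upwards [ae_eventually_notMem hsum] with ω hω
  obtain ⟨N', hN'⟩ := eventually_atTop.1 hω
  filter_upwards [eventually_ge_atTop (N' + N₀)] with n hn
  obtain ⟨m, rfl⟩ : ∃ m, n = m + N₀ := ⟨n - N₀, by omega⟩
  exact hN' m (by omega)

/-- the sequence `(n + 1) ^ A` has no long gaps -/
theorem dense_pow {A κ : ℝ} (hA : 1 ≤ A) (hκ : κ < 1 / A) : ∀ᶠ T : ℝ in atTop, ∃ n : ℕ,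
    T ≤ ((n : ℝ) + 1) ^ A ∧ ((n : ℝ) + 1) ^ A ≤ T + T ^ (1 - κ) ∧
    T ^ (1 / A) ≤ (n : ℝ) + 1 := by
  have hA0 : 0 < A := by linarith
  have ev : ∀ᶠ T : ℝ in atTop, (2 : ℝ) ^ A ≤ T ^ (1 / A - κ) :=
    (tendsto_rpow_atTop (by linarith)).eventually_ge_atTop _
  filter_upwards [ev, eventually_ge_atTop 1] with T h1 h2
  have hT0 : 0 < T := by linarith
  set x : ℝ := T ^ (1 / A) with hx
  have hx1 : 1 ≤ x := Real.one_le_rpow h2 (by positivity)
  have hx0 : 0 < x := by linarith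
  have hxA : x ^ A = T := by
    rw [hx, ← Real.rpow_mul hT0.le]
    rw [one_div_mul_cancel hA0.ne', Real.rpow_one]
  obtain ⟨n, hn1, hn2⟩ : ∃ n : ℕ, x ≤ (n : ℝ) + 1 ∧ (n : ℝ) + 1 ≤ x + 1 := by
    refine ⟨⌊x⌋₊, (Nat.lt_floor_add_one x).le, ?_⟩
    have := Nat.floor_le hx0.le
    linarith
  refine ⟨n, ?_, ?_, hn1⟩
  · rw [← hxA]
    exact Real.rpow_le_rpow hx0.le hn1 hA0.le
  · have h3 : ((n : ℝ) + 1) ^ A ≤ (x + 1) ^ A := Real.rpow_le_rpow (by positivity) hn2 hA0.le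
    have h4 : (x + 1) ^ A = T * (1 + 1 / x) ^ A := by
      rw [← hxA, ← Real.mul_rpow hx0.le (by positivity)]
      congr 1
      field_simp
    have hu0 : 0 ≤ 1 / x := by positivity
    have hu1 : 1 / x ≤ 1 := by rw [div_le_one hx0]; exact hx1
    have h5 : (1 + 1 / x) ^ A ≤ 1 + 1 / x * 2 ^ A := by
      have hc := (convexOn_rpow hA).2 (show (1 : ℝ) ∈ Ici (0 : ℝ) by simp)
        (show (2 : ℝ) ∈ Ici (0 : ℝ) by simp) (show 0 ≤ 1 - 1 / x by linarith) hu0 (by ring)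
      simp only [smul_eq_mul, Real.one_rpow, mul_one] at hc
      have e : 1 - 1 / x + 1 / x * 2 = 1 + 1 / x := by ring
      rw [e] at hc
      linarith
    have h6 : T * (1 / x * 2 ^ A) ≤ T ^ (1 - κ) := by
      have h7 : T * (1 / x) = T ^ (1 - 1 / A) := by
        rw [hx, one_div (T ^ (1 / A)), ← Real.rpow_neg hT0.le, Real.rpow_sub hT0, Real.rpow_one,
          Real.rpow_neg hT0.le]
        rfl
      have h8 : T ^ (1 - κ) = T ^ (1 - 1 / A) * T ^ (1 / A - κ) := by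
        rw [← Real.rpow_add hT0]
        congr 1
        ring
      rw [← mul_assoc, h7, h8]
      exact mul_le_mul_of_nonneg_left h1 (by positivity)
    calc ((n : ℝ) + 1) ^ A ≤ T * (1 + 1 / x) ^ A := h3.trans_eq h4
      _ ≤ T * (1 + 1 / x * 2 ^ A) := mul_le_mul_of_nonneg_left h5 hT0.le
      _ = T + T * (1 / x * 2 ^ A) := by ring
      _ ≤ T + T ^ (1 - κ) := by linarith

/-- the exponent of convergence of `(n + 1) ^ A` -/
theorem summ_pow {A δ : ℝ} (h : 1 < A * δ) :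
    Summable (fun n : ℕ => (((n : ℝ) + 1) ^ A) ^ (-δ)) := by
  have h1 : Summable (fun n : ℕ => (n : ℝ) ^ (-(A * δ))) := Real.summable_nat_rpow.2 (by linarith)
  have h2 := (summable_nat_add_iff 1).2 h1
  refine h2.congr (fun n => ?_)
  have h3 : (0 : ℝ) ≤ (n : ℝ) + 1 := by positivity
  rw [← Real.rpow_mul h3]
  congr 1
  · push_cast
    ring
  · ring

/-- a set of a sequence of small sets contains few of the members of the sequence at almost every point -/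
theorem cnt {α : Type} [MeasurableSpace α] {μ : Measure α} {s : ℕ → Set α} {δ K : ℝ} (hδ : 0 < δ)
    (hδ1 : δ ≤ 1)
    (hs : ∀ n : ℕ, μ (s n) ≤ ENNReal.ofReal (K * ((n : ℝ) + 1) ^ (-δ))) :
    ∀ᵐ ω ∂μ, ∀ᶠ X : ℕ in atTop, ({n : ℕ | n < X ∧ ω ∈ s n}.ncard : ℝ) ≤ (X : ℝ) ^ (1 - δ / 4) := by
  classical
  set w : ℕ → ℝ := fun n => ((n : ℝ) + 1) ^ (-(1 - δ / 2)) with hw
  have hw0 : ∀ n, 0 < w n := fun n => by rw [hw]; positivity
  set f : ℕ → α → ENNReal := fun n => (toMeasurable μ (s n)).indicator fun _ => ENNReal.ofReal (w n) with hf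
  have hfm : ∀ n, AEMeasurable (f n) μ := fun n =>
    (measurable_const.indicator (measurableSet_toMeasurable μ (s n))).aemeasurable
  have hint : ∫⁻ ω, ∑' n, f n ω ∂μ ≠ ⊤ := by
    rw [lintegral_tsum hfm]
    have h1 : ∀ n, ∫⁻ ω, f n ω ∂μ ≤ ENNReal.ofReal (K * ((n : ℝ) + 1) ^ (-(1 + δ / 2))) := by
      intro n
      rw [hf]
      simp only
      rw [lintegral_indicator (measurableSet_toMeasurable μ (s n)), setLIntegral_const,
        measure_toMeasurable]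
      refine (mul_le_mul_right (hs n) _).trans ?_
      rw [← ENNReal.ofReal_mul (hw0 n).le]
      apply ENNReal.ofReal_le_ofReal
      apply le_of_eq
      have hn : (0 : ℝ) < (n : ℝ) + 1 := by positivity
      rw [hw]
      simp only
      have e : ((n : ℝ) + 1) ^ (-(1 + δ / 2)) = ((n : ℝ) + 1) ^ (-(1 - δ / 2)) * ((n : ℝ) + 1) ^ (-δ) := by
        rw [← Real.rpow_add hn]
        congr 1
        ring
      rw [e]
      ring
    have h2 : Summable fun n : ℕ => K * ((n : ℝ) + 1) ^ (-(1 + δ / 2)) := by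
      have h3 : Summable (fun n : ℕ => (n : ℝ) ^ (-(1 + δ / 2))) := Real.summable_nat_rpow.2 (by linarith)
      have h4 := (summable_nat_add_iff 1).2 h3
      refine (h4.mul_left K).congr fun n => ?_
      push_cast
      rfl
    exact ne_top_of_le_ne_top h2.tsum_ofReal_ne_top (ENNReal.tsum_le_tsum h1)
  have hae := ae_lt_top' (AEMeasurable.ennreal_tsum hfm) hint
  filter_upwards [hae] with ω hω
  obtain ⟨G, hG⟩ : ∃ G : ℝ, G = (∑' n, f n ω).toReal := ⟨_, rfl⟩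
  have ev : ∀ᶠ X : ℕ in atTop, G ≤ (X : ℝ) ^ (δ / 4) :=
    ((tendsto_rpow_atTop (by positivity)).comp tendsto_natCast_atTop_atTop).eventually_ge_atTop _
  filter_upwards [ev, eventually_ge_atTop 1] with X h1 h2
  have hX0 : (0 : ℝ) < X := by exact_mod_cast h2
  have eS : {n : ℕ | n < X ∧ ω ∈ s n} = (((Finset.range X).filter fun n => ω ∈ s n : Finset ℕ) : Set ℕ) := by
    ext n
    simp
  rw [eS, Set.ncard_coe_finset]
  set S : Finset ℕ := (Finset.range X).filter fun n => ω ∈ s n with hS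
  have h3 : ∑ n ∈ S, w n ≤ G := by
    have h4 : ENNReal.ofReal (∑ n ∈ S, w n) ≤ ∑' n, f n ω := by
      rw [ENNReal.ofReal_sum_of_nonneg fun n _ => (hw0 n).le]
      refine le_trans (Finset.sum_le_sum fun n hn => ?_) (ENNReal.sum_le_tsum S)
      have hm : ω ∈ toMeasurable μ (s n) := subset_toMeasurable μ (s n) (Finset.mem_filter.1 hn).2
      rw [hf]
      simp only
      rw [Set.indicator_of_mem hm]
    have h5 := ENNReal.toReal_mono hω.ne h4
    rwa [ENNReal.toReal_ofReal (Finset.sum_nonneg fun n _ => (hw0 n).le), ← hG] at h5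
  have h6 : (S.card : ℝ) * (X : ℝ) ^ (-(1 - δ / 2)) ≤ ∑ n ∈ S, w n := by
    rw [← nsmul_eq_mul]
    refine Finset.card_nsmul_le_sum S _ _ fun n hn => ?_
    have h7 : n < X := Finset.mem_range.1 (Finset.mem_filter.1 hn).1
    have h8 : (n : ℝ) + 1 ≤ X := by exact_mod_cast h7
    rw [hw]
    exact Real.rpow_le_rpow_of_nonpos (by positivity) h8 (by linarith)
  have h9 : (S.card : ℝ) * (X : ℝ) ^ (-(1 - δ / 2)) ≤ (X : ℝ) ^ (δ / 4) := h6.trans (h3.trans h1)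
  have e1 : (S.card : ℝ) = (S.card : ℝ) * (X : ℝ) ^ (-(1 - δ / 2)) * (X : ℝ) ^ (1 - δ / 2) := by
    rw [mul_assoc, ← Real.rpow_add hX0]
    simp
  have e2 : (X : ℝ) ^ (1 - δ / 4) = (X : ℝ) ^ (δ / 4) * (X : ℝ) ^ (1 - δ / 2) := by
    rw [← Real.rpow_add hX0]
    congr 1
    ring
  rw [e1, e2]
  exact mul_le_mul_of_nonneg_right h9 (by positivity)

/-- almost every ray avoids, at almost all integral scales, small subsets of the cubes -/
theorem count_rays {ι : Type} [Fintype ι] {B : ℕ → ℝ → Set (ι → ℝ)} {δ T₀ : ℝ} {M : ℕ → ℝ} (hδ : 0 < δ)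
    (hδ1 : δ ≤ 1) (hM : ∀ m, 1 ≤ M m)
    (hB : ∀ m, ∀ T, T₀ ≤ T → volume (B m T) ≤ ENNReal.ofReal (T ^ ((Fintype.card ι : ℝ) - δ))) :
    ∀ᵐ ω : ι → ℝ, ∀ m : ℕ, ∀ᶠ X : ℕ in atTop,
      ({n : ℕ | n < X ∧ T₀ ≤ (n : ℝ) + 1 ∧ ((n : ℝ) + 1) • ω ∈ B m (M m * ((n : ℝ) + 1))}.ncard : ℝ) ≤
        (X : ℝ) ^ (1 - δ / 4) := by
  rw [ae_all_iff]
  intro m
  have hMp : 0 < M m := lt_of_lt_of_le one_pos (hM m)
  have hvol : ∀ n : ℕ, volume {ω : ι → ℝ | T₀ ≤ (n : ℝ) + 1 ∧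
      ((n : ℝ) + 1) • ω ∈ B m (M m * ((n : ℝ) + 1))} ≤
      ENNReal.ofReal (M m ^ ((Fintype.card ι : ℝ) - δ) * ((n : ℝ) + 1) ^ (-δ)) := by
    intro n
    have hvp : (0 : ℝ) < (n : ℝ) + 1 := by positivity
    by_cases h0 : T₀ ≤ (n : ℝ) + 1
    · have hT : T₀ ≤ M m * ((n : ℝ) + 1) := by
        refine h0.trans ?_
        nlinarith [hM m]
      have e0 : {ω : ι → ℝ | T₀ ≤ (n : ℝ) + 1 ∧ ((n : ℝ) + 1) • ω ∈ B m (M m * ((n : ℝ) + 1))} =
          (fun ω : ι → ℝ => ((n : ℝ) + 1) • ω) ⁻¹' (B m (M m * ((n : ℝ) + 1))) := by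
        ext ω
        simp [h0]
      rw [e0, Measure.addHaar_preimage_smul volume hvp.ne', Module.finrank_fintype_fun_eq_card]
      refine (mul_le_mul_right (hB m _ hT) _).trans ?_
      rw [← ENNReal.ofReal_mul (abs_nonneg _)]
      apply ENNReal.ofReal_le_ofReal
      rw [abs_of_pos (inv_pos.2 (pow_pos hvp _)), ← Real.rpow_natCast, ← Real.rpow_neg hvp.le,
        Real.mul_rpow hMp.le hvp.le]
      apply le_of_eq
      have e : ((n : ℝ) + 1) ^ (-(Fintype.card ι : ℝ)) * ((n : ℝ) + 1) ^ ((Fintype.card ι : ℝ) - δ) =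
          ((n : ℝ) + 1) ^ (-δ) := by
        rw [← Real.rpow_add hvp]
        congr 1
        ring
      rw [← e]
      ring
    · have e0 : {ω : ι → ℝ | T₀ ≤ (n : ℝ) + 1 ∧ ((n : ℝ) + 1) • ω ∈ B m (M m * ((n : ℝ) + 1))} = ∅ := by
        ext ω
        simp only [Set.mem_ofPred_eq, Set.mem_empty_iff_false, iff_false]
        exact fun h => h0 h.1
      rw [e0, measure_empty]
      exact bot_le
  exact cnt hδ hδ1 hvol

/-- passing to a weaker condition -/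
theorem ev_count {P Q : ℕ → Prop} {a b : ℝ} (hab : a < b) (hb : 0 < b)
    (hQ : ∀ᶠ X : ℕ in atTop, ({n : ℕ | n < X ∧ Q n}.ncard : ℝ) ≤ (X : ℝ) ^ a)
    (hPQ : ∀ᶠ n : ℕ in atTop, P (n + 1) → Q n) :
    ∀ᶠ X : ℕ in atTop, ({T : ℕ | 1 ≤ T ∧ T ≤ X ∧ P T}.ncard : ℝ) ≤ (X : ℝ) ^ b := by
  obtain ⟨N, hN⟩ := eventually_atTop.1 hPQ
  have ev1 : ∀ᶠ X : ℕ in atTop, (2 : ℝ) ≤ (X : ℝ) ^ (b - a) :=
    ((tendsto_rpow_atTop (by linarith)).comp tendsto_natCast_atTop_atTop).eventually_ge_atTop _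
  have ev2 : ∀ᶠ X : ℕ in atTop, 2 * (N : ℝ) ≤ (X : ℝ) ^ b :=
    ((tendsto_rpow_atTop hb).comp tendsto_natCast_atTop_atTop).eventually_ge_atTop _
  filter_upwards [hQ, ev1, ev2, eventually_ge_atTop 1] with X h1 h2 h3 h4
  have hX0 : (0 : ℝ) < X := by exact_mod_cast h4
  have hsub : {T : ℕ | 1 ≤ T ∧ T ≤ X ∧ P T} ⊆
      (Finset.Icc 1 N : Set ℕ) ∪ (fun n => n + 1) '' {n : ℕ | n < X ∧ Q n} := by
    rintro T ⟨hT1, hT2, hT3⟩
    rcases le_or_gt T N with h | h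
    · left
      simp [hT1, h]
    · right
      obtain ⟨n, rfl⟩ : ∃ n, T = n + 1 := ⟨T - 1, by omega⟩
      exact ⟨n, ⟨by omega, hN n (by omega) hT3⟩, rfl⟩
  have hfin : {n : ℕ | n < X ∧ Q n}.Finite := (Set.finite_lt_nat X).subset fun n hn => hn.1
  have h5 : {T : ℕ | 1 ≤ T ∧ T ≤ X ∧ P T}.ncard ≤ N + {n : ℕ | n < X ∧ Q n}.ncard := by
    refine (Set.ncard_le_ncard hsub ((Finset.finite_toSet _).union (hfin.image _))).trans ?_
    refine (Set.ncard_union_le _ _).trans ?_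
    have h6 := Set.ncard_image_le (f := fun n : ℕ => n + 1) hfin
    have h7 : ((Finset.Icc 1 N : Finset ℕ) : Set ℕ).ncard = N := by
      rw [Set.ncard_coe_finset]
      simp
    omega
  have h8 : ({T : ℕ | 1 ≤ T ∧ T ≤ X ∧ P T}.ncard : ℝ) ≤ N + ({n : ℕ | n < X ∧ Q n}.ncard : ℝ) := by
    exact_mod_cast h5
  have h9 : 2 * (X : ℝ) ^ a ≤ (X : ℝ) ^ b := by
    have e : (X : ℝ) ^ b = (X : ℝ) ^ (b - a) * (X : ℝ) ^ a := by
      rw [← Real.rpow_add hX0]
      congr 1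
      ring
    rw [e]
    exact mul_le_mul_of_nonneg_right h2 (by positivity)
  linarith

end Pool.Agent.Helper271.Rays
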