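import Pool.Agent.V1161.ZW.PolyW
import Pool.Agent.Y763.PS.Every

/-!
# Many places and polynomial shifts, in every interval of length `T ^ h`
-/

open Complex Filter Topology Set MeasureTheory
open scoped BigOperators

namespace Pool.Agent.Helper271.ShortShift

open H370 Pool.Agent.TH342.CV Pool.Agent.V1161.ZW

/-- the correlations of the numbers of simple critical zeros in windows, at some `k` of many places,
in every interval of length `T ^ h` -/
theorem contS (k : ℕ) {h ε : ℝ} (hh : 0 < h) (hh1 : h ≤ 1) (hp : 0 < 2 - H295Iso.c0 h)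
    (hε : 0 < ε) : ∃ M : ℕ, ∃ g δ : ℝ, 0 < g ∧ 0 < δ ∧
    ∀ (r : ℕ) (F : Fin r → ℂ → ℂ), (∀ i, GoodL (F i)) → ∃ T₀ : ℝ, 10 ≤ T₀ ∧ ∀ T : ℝ, T₀ ≤ T →
      ∀ H : ℝ, T ^ h ≤ H → H ≤ T →
      ∀ m : ℕ, M ≤ m → ∀ (c : Fin m → Fin r) (b : Fin m → ℝ), (∀ i, 0 ≤ b i ∧ b i ≤ T ^ (1 + δ)) →
      ∃ a : Fin k → Fin m, Function.Injective a ∧
        ((2 - H295Iso.c0 h) ^ k - ε) * (g ^ k * H) ≤ ∫ t in T..(T + H), ∏ i,
          (cnt (F (c (a i))) (t + b (a i)) (t + b (a i) + g * (2 * Real.pi / Real.log T)) : ℝ) := by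
  classical
  have hpi := Real.pi_pos
  set p : ℝ := 2 - H295Iso.c0 h with hpdef
  -- the parameters
  obtain ⟨e, he0, he1, hep, heq⟩ : ∃ e : ℝ, 0 < e ∧ e ≤ 1 / 4 ∧ e ≤ p ∧ p ^ k - ε / 4 ≤ (p - e) ^ k := by
    have hc : ContinuousAt (fun x : ℝ => (p - x) ^ k) 0 := by fun_prop
    have h0 : (fun x : ℝ => (p - x) ^ k) 0 = p ^ k := by simp
    have h1 : ∀ᶠ x in 𝓝 (0 : ℝ), p ^ k - ε / 4 < (p - x) ^ k := by
      apply hc.eventually (lt_mem_nhds _)
      rw [h0]; linarith
    rw [Metric.eventually_nhds_iff] at h1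
    obtain ⟨ρ, hρ0, hρ⟩ := h1
    refine ⟨min (min (ρ / 2) (1 / 4)) p, by positivity,
      (min_le_left _ _).trans (min_le_right _ _), min_le_right _ _, (hρ ?_).le⟩
    rw [Real.dist_eq, sub_zero, abs_of_pos (by positivity)]
    exact ((min_le_left _ _).trans (min_le_left _ _)).trans_lt (by linarith)
  obtain ⟨M0, hM0⟩ := exists_nat_ge (4 * 2 ^ k * (k : ℝ) ^ 2 / ε)
  obtain ⟨g, hg0, d, hd0, hdh, hcore⟩ := Pool.Agent.Y763.PS.avg_every hh hh1 he0 (by linarith)
  set δ : ℝ := d / 2 with hδ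
  have hδ0 : 0 < δ := by positivity
  have hd2 : d = 2 * δ := by rw [hδ]; ring
  refine ⟨max M0 (k + 1), g, δ, hg0, hδ0, fun r F hF => ?_⟩
  choose T1 hT1 hT1' using fun i => hcore (F i) (hF i)
  obtain ⟨T2, hT2⟩ := (Set.finite_range T1).bddAbove
  have hT2' : ∀ i, T1 i ≤ T2 := fun i => hT2 ⟨i, rfl⟩
  set W : ℝ := 2 * Real.pi * g with hW
  have hW0 : 0 < W := by positivity
  have ev1 : ∀ᶠ T : ℝ in atTop, 2 ≤ T ^ δ := (tendsto_rpow_atTop hδ0).eventually_ge_atTop 2
  have ev2 : ∀ᶠ T : ℝ in atTop, W * (2 + 2 * p ^ k / ε) ≤ T ^ h :=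
    (tendsto_rpow_atTop hh).eventually_ge_atTop _
  obtain ⟨T3, hT3⟩ := (ev1.and ev2).exists_forall_of_atTop
  refine ⟨max 10 (max (max T2 T3) W), le_max_left _ _,
    fun T hT H hH1 hH2 m hm c b hb => ?_⟩
  have hT10 : 10 ≤ T := (le_max_left _ _).trans hT
  have hTT2 : T2 ≤ T := ((le_max_left _ _).trans ((le_max_left _ _).trans (le_max_right _ _))).trans hT
  have hTT3 := hT3 T (((le_max_right _ _).trans ((le_max_left _ _).trans (le_max_right _ _))).trans hT)
  have hTW : W ≤ T := ((le_max_right _ _).trans (le_max_right _ _)).trans hT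
  have hT0 : 0 < T := by linarith
  have hlog1 : 1 ≤ Real.log T := by
    rw [Real.le_log_iff_exp_le hT0]
    have := Real.exp_one_lt_d9
    linarith
  have hlog : 0 < Real.log T := by linarith
  have hkm : k + 1 ≤ m := (le_max_right _ _).trans hm
  have hMm : (M0 : ℝ) ≤ m := by exact_mod_cast (le_max_left _ _).trans hm
  have hm0 : (0 : ℝ) < m := by
    have : 0 < m := by omega
    exact_mod_cast this
  set w : ℝ := g * (2 * Real.pi / Real.log T) with hw
  have hw0 : 0 < w := by positivity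
  have hwW : w ≤ W := by
    rw [hw, hW]
    have : 2 * Real.pi / Real.log T ≤ 2 * Real.pi := div_le_self (by positivity) hlog1
    calc g * (2 * Real.pi / Real.log T) ≤ g * (2 * Real.pi) :=
          mul_le_mul_of_nonneg_left this hg0.le
      _ = 2 * Real.pi * g := by ring
  have hTp : 0 < T ^ h := Real.rpow_pos_of_pos hT0 _
  have hH0 : 0 < H := hTp.trans_le hH1
  have hpk0 : 0 < p ^ k := pow_pos hp k
  have hW1 : W ≤ 1 / 2 * T ^ h := by
    have h1 : 0 ≤ W * (2 * p ^ k / ε) := by positivity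
    have h2 := hTT3.2
    have h3 : W * (2 + 2 * p ^ k / ε) = 2 * W + W * (2 * p ^ k / ε) := by ring
    linarith
  have hW2 : p ^ k * W ≤ ε / 2 * H := by
    have h2 := hTT3.2
    have h3 : W * (2 * p ^ k / ε) ≤ T ^ h := by
      have h4 : W * (2 + 2 * p ^ k / ε) = 2 * W + W * (2 * p ^ k / ε) := by ring
      linarith
    have h5 : W * (2 * p ^ k / ε) = (p ^ k * W) * 2 / ε := by ring
    rw [h5, div_le_iff₀ hε] at h3
    have h6 : T ^ h * ε ≤ H * ε := mul_le_mul_of_nonneg_right hH1 hε.le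
    linarith
  have hTd : T ^ (h - d) * 2 ≤ T ^ h := by
    have e1 : T ^ h = T ^ (h - d) * T ^ (2 * δ) := by
      rw [← Real.rpow_add hT0]; congr 1; rw [hd2]; ring
    have e2 : (2 : ℝ) ≤ T ^ (2 * δ) := by
      refine hTT3.1.trans ?_
      exact Real.rpow_le_rpow_of_exponent_le (by linarith) (by linarith)
    rw [e1]
    exact mul_le_mul_of_nonneg_left e2 (Real.rpow_nonneg hT0.le _)
  have hTd' : T ^ (1 + δ) + T ≤ T ^ (1 + d) := by
    have e1 : T ^ (1 + d) = T ^ (1 + δ) * T ^ δ := by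
      rw [← Real.rpow_add hT0]; congr 1; rw [hd2]; ring
    have e2 : T ≤ T ^ (1 + δ) := by
      conv_lhs => rw [← Real.rpow_one T]
      exact Real.rpow_le_rpow_of_exponent_le (by linarith) (by linarith)
    have e3 : T ^ (1 + δ) * 2 ≤ T ^ (1 + δ) * T ^ δ :=
      mul_le_mul_of_nonneg_left hTT3.1 (Real.rpow_nonneg hT0.le _)
    rw [e1]; linarith
  -- the number of windows
  set N : ℕ := ⌊H / w⌋₊ with hN
  have hN1 : (N : ℝ) * w ≤ H := by
    have := Nat.floor_le (div_nonneg hH0.le hw0.le)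
    rwa [← hN, le_div_iff₀ hw0] at this
  have hN2 : H - w < N * w := by
    have := Nat.lt_floor_add_one (H / w)
    rw [← hN, div_lt_iff₀ hw0] at this
    linarith
  have hNp : 0 < N := by
    have h1 : 0 < (N : ℝ) * w := by linarith
    have h2 : (0 : ℝ) < N := by
      by_contra h3
      push Not at h3
      have := mul_nonpos_of_nonpos_of_nonneg h3 hw0.le
      linarith
    exact_mod_cast h2
  have hN3 : T ^ (h - d) ≤ N * w := by linarith
  -- the correlation functions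
  set f : (Fin k → Fin m) → ℝ → ℝ := fun a t => ∏ i,
    (cnt (F (c (a i))) (t + b (a i)) (t + b (a i) + w) : ℝ) with hf
  have hf0 : ∀ a t, 0 ≤ f a t := fun a t => Finset.prod_nonneg fun i _ => Nat.cast_nonneg _
  have hint : ∀ a A B, T ≤ A → A ≤ B → IntervalIntegrable (f a) volume A B := by
    intro a A B h1 h2
    exact prod_int (F := fun i => F (c (a i))) (fun i => hF _) (b := fun i => b (a i)) (w := w)
      (fun i => by linarith [(hb (a i)).1]) h2
  set J := Finset.univ.filter (fun a : Fin k → Fin m => Function.Injective a) with hJ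
  rcases le_or_gt (p ^ k - ε) 0 with hneg | hpos
  · obtain ⟨a, ha⟩ := inj_nonempty m k (by omega)
    refine ⟨a, (Finset.mem_filter.1 ha).2, ?_⟩
    have h1 : 0 ≤ ∫ t in T..(T + H), f a t :=
      intervalIntegral.integral_nonneg (by linarith) fun t _ => hf0 a t
    have h2 : (p ^ k - ε) * (g ^ k * H) ≤ 0 :=
      mul_nonpos_of_nonpos_of_nonneg hneg (by positivity)
    exact h2.trans h1
  set K : ℝ := (1 + e) * (h * g) with hK
  have hK0 : 0 < K := by positivity
  set q : ℝ := (p - e) * g / K with hq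
  have hq0 : 0 ≤ q := div_nonneg (mul_nonneg (by linarith) hg0.le) hK0.le
  have hKq : K * q = (p - e) * g := by rw [hq]; field_simp
  have hK2 : K ≤ 2 * g := by
    have h1 : (1 + e) * h ≤ 2 := by nlinarith
    calc K = ((1 + e) * h) * g := by rw [hK]; ring
      _ ≤ 2 * g := mul_le_mul_of_nonneg_right h1 hg0.le
  set c₀ : ℝ := p ^ k - ε / 2 with hc₀
  have hc₀0 : 0 < c₀ := by rw [hc₀]; linarith
  have hkey : g ^ k * c₀ ≤ K ^ k * (q ^ k - (k : ℝ) ^ 2 / m) := by
    have h1 : K ^ k * q ^ k = (p - e) ^ k * g ^ k := by rw [← mul_pow, hKq, mul_pow]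
    have h2 : K ^ k ≤ 2 ^ k * g ^ k := by
      rw [← mul_pow]; exact pow_le_pow_left₀ hK0.le hK2 k
    have h3 : 2 ^ k * ((k : ℝ) ^ 2 / m) ≤ ε / 4 := by
      rw [mul_div_assoc', div_le_iff₀ hm0]
      have h4 : 4 * 2 ^ k * (k : ℝ) ^ 2 / ε ≤ m := hM0.trans hMm
      rw [div_le_iff₀ hε] at h4
      linarith
    have h5 : K ^ k * ((k : ℝ) ^ 2 / m) ≤ g ^ k * (ε / 4) := by
      calc K ^ k * ((k : ℝ) ^ 2 / m) ≤ (2 ^ k * g ^ k) * ((k : ℝ) ^ 2 / m) :=
            mul_le_mul_of_nonneg_right h2 (by positivity)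
        _ = g ^ k * (2 ^ k * ((k : ℝ) ^ 2 / m)) := by ring
        _ ≤ g ^ k * (ε / 4) := mul_le_mul_of_nonneg_left h3 (by positivity)
    have h6 : (p ^ k - ε / 4) * g ^ k ≤ (p - e) ^ k * g ^ k :=
      mul_le_mul_of_nonneg_right heq (by positivity)
    have h7 : K ^ k * (q ^ k - (k : ℝ) ^ 2 / m) = (p - e) ^ k * g ^ k - K ^ k * ((k : ℝ) ^ 2 / m) := by
      rw [mul_sub, h1]
    rw [h7]
    have h8 : g ^ k * c₀ = (p ^ k - ε / 4) * g ^ k - g ^ k * (ε / 4) := by rw [hc₀]; ring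
    rw [h8]
    linarith
  -- the pointwise inequality
  have hpt : ∀ s ∈ Set.Icc (0 : ℝ) w, g ^ k * ((m : ℝ) ^ k * c₀ * N) ≤
      ∑ a ∈ J, ∑ j ∈ Finset.range N, f a (T + j * w + s) := by
    intro s hs
    set n : Fin m → ℕ → ℝ := fun i j =>
      (cnt (F (c i)) (T + j * w + s + b i) (T + j * w + s + b i + w) : ℝ) with hn
    have hn0 : ∀ i j, 0 ≤ n i j := fun i j => Nat.cast_nonneg _
    set x : Fin m → ℕ → ℝ := fun i j => min (n i j) K / K with hx
    have hx0 : ∀ i j, 0 ≤ x i j := fun i j => div_nonneg (le_min (hn0 i j) hK0.le) hK0.le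
    have hx1 : ∀ i j, x i j ≤ 1 := fun i j => (div_le_one hK0).2 (min_le_right _ _)
    have hxs : ∀ i, q * N ≤ ∑ j ∈ Finset.range N, x i j := by
      intro i
      have h1 := hT1' (c i) T ((hT2' _).trans hTT2) (b i + s)
        (add_nonneg (hb i).1 hs.1) (by linarith [(hb i).2, hs.2]) N hN3 (hN1.trans hH2)
      have h2 : ∑ j ∈ Finset.range N, x i j =
          (∑ j ∈ Finset.range N, min (n i j) K) / K := by
        rw [Finset.sum_div]
      rw [h2, le_div_iff₀ hK0]
      have h3 : q * N * K = (p - e) * (g * N) := by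
        rw [mul_assoc, mul_comm (N : ℝ) K, ← mul_assoc, mul_comm q K, hKq]; ring
      rw [h3]
      refine h1.trans (le_of_eq (Finset.sum_congr rfl fun j _ => ?_))
      simp only [hn]
      have e1 : T + (b i + s) + j * w = T + j * w + s + b i := by ring
      have e2 : T + (b i + s) + (j + 1) * w = T + j * w + s + b i + w := by ring
      rw [← hw, e1, e2]
    have h4 := pattern_sum N m k hNp (by omega) (by omega) x hx0 hx1 q hq0 hxs
    have h4' : g ^ k * ((m : ℝ) ^ k * c₀ * N) ≤ K ^ k * ((m : ℝ) ^ k * (q ^ k - (k : ℝ) ^ 2 / m) * N) := by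
      have e1 : g ^ k * ((m : ℝ) ^ k * c₀ * N) = (g ^ k * c₀) * ((m : ℝ) ^ k * N) := by ring
      have e2 : K ^ k * ((m : ℝ) ^ k * (q ^ k - (k : ℝ) ^ 2 / m) * N) =
        (K ^ k * (q ^ k - (k : ℝ) ^ 2 / m)) * ((m : ℝ) ^ k * N) := by ring
      rw [e1, e2]
      exact mul_le_mul_of_nonneg_right hkey (by positivity)
    refine h4'.trans ((mul_le_mul_of_nonneg_left h4 (by positivity : 0 ≤ K ^ k)).trans ?_)
    rw [Finset.mul_sum]
    apply Finset.sum_le_sum
    intro a _
    rw [Finset.mul_sum]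
    apply Finset.sum_le_sum
    intro j _
    have e3 : K ^ k * ∏ i, x (a i) j = ∏ i, (K * x (a i) j) := by
      rw [Finset.prod_mul_distrib, Finset.prod_const, Finset.card_univ, Fintype.card_fin]
    rw [e3]
    apply Finset.prod_le_prod (fun i _ => mul_nonneg hK0.le (hx0 _ _))
    intro i _
    simp only [hx]
    rw [mul_div_cancel₀ _ hK0.ne']
    exact min_le_left _ _
  -- integration
  have hTj : ∀ j : ℕ, T ≤ T + j * w := fun j => by
    have : 0 ≤ (j : ℝ) * w := by positivity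
    linarith
  have hsplit : ∀ a, ∑ j ∈ Finset.range N, ∫ s in (0 : ℝ)..w, f a (T + j * w + s) =
      ∫ t in T..(T + N * w), f a t := by
    intro a
    have h1 := intervalIntegral.sum_integral_adjacent_intervals (f := f a) (μ := volume)
      (a := fun j : ℕ => T + j * w) (n := N) (fun j _ => hint a _ _ (hTj j) (by
        push_cast; linarith))
    simp only [Nat.cast_zero, zero_mul, add_zero] at h1
    rw [← h1]
    apply Finset.sum_congr rfl
    intro j _
    rw [intervalIntegral.integral_comp_add_left]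
    congr 1
    · ring
    · push_cast; ring
  have hI : w * (g ^ k * ((m : ℝ) ^ k * c₀ * N)) ≤ ∑ a ∈ J, ∫ t in T..(T + H), f a t := by
    have hii : ∀ a (j : ℕ), IntervalIntegrable (fun s => f a (T + j * w + s)) volume 0 w := by
      intro a j
      have h1 := (hint a (T + j * w) (T + j * w + w) (hTj j) (by linarith)).comp_add_left (T + j * w)
      simpa using h1
    have h1 : ∫ _s in (0 : ℝ)..w, g ^ k * ((m : ℝ) ^ k * c₀ * N) ≤
        ∫ s in (0 : ℝ)..w, ∑ a ∈ J, ∑ j ∈ Finset.range N, f a (T + j * w + s) := by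
      apply intervalIntegral.integral_mono_on hw0.le
      · exact intervalIntegrable_const
      · exact ii_sum _ _ (fun a _ => ii_sum _ _ (fun j _ => hii a j))
      · exact hpt
    rw [intervalIntegral.integral_const, sub_zero, smul_eq_mul] at h1
    refine h1.trans ?_
    rw [intervalIntegral.integral_finsetSum (fun a _ => ii_sum _ _ (fun j _ => hii a j))]
    apply Finset.sum_le_sum
    intro a _
    rw [intervalIntegral.integral_finsetSum (fun j _ => hii a j), hsplit a]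
    have h2 : T + N * w ≤ T + H := by linarith
    have h3 : T ≤ T + N * w := hTj N
    rw [← intervalIntegral.integral_add_adjacent_intervals (hint a T (T + N * w) le_rfl h3)
      (hint a (T + N * w) (T + H) h3 h2)]
    have h4 : 0 ≤ ∫ t in (T + N * w)..(T + H), f a t :=
      intervalIntegral.integral_nonneg h2 fun t _ => hf0 a t
    linarith
  -- the choice of the places
  by_contra hcon
  push Not at hcon
  have hlt : ∑ a ∈ J, ∫ t in T..(T + H), f a t < ∑ _a ∈ J, (p ^ k - ε) * (g ^ k * H) :=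
    Finset.sum_lt_sum_of_nonempty (inj_nonempty m k (by omega))
      fun a ha => hcon a (Finset.mem_filter.1 ha).2
  rw [Finset.sum_const, nsmul_eq_mul] at hlt
  have hJle : (J.card : ℝ) ≤ (m : ℝ) ^ k := card_inj_le m k
  have h8 : (J.card : ℝ) * ((p ^ k - ε) * (g ^ k * H)) ≤
      (m : ℝ) ^ k * ((p ^ k - ε) * (g ^ k * H)) :=
    mul_le_mul_of_nonneg_right hJle (by positivity)
  have h9 : (p ^ k - ε) * H ≤ c₀ * (N * w) := by
    have h10 : c₀ * (H - w) ≤ c₀ * (N * w) := mul_le_mul_of_nonneg_left hN2.le hc₀0.le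
    have h11 : c₀ * w ≤ p ^ k * W :=
      mul_le_mul (by rw [hc₀]; linarith) hwW hw0.le hpk0.le
    have h12 : (p ^ k - ε) * H = c₀ * (H - w) + c₀ * w - ε / 2 * H := by rw [hc₀]; ring
    linarith
  have h13 : (m : ℝ) ^ k * ((p ^ k - ε) * (g ^ k * H)) ≤ w * (g ^ k * ((m : ℝ) ^ k * c₀ * N)) := by
    have e1 : (m : ℝ) ^ k * ((p ^ k - ε) * (g ^ k * H)) =
      ((m : ℝ) ^ k * g ^ k) * ((p ^ k - ε) * H) := by ring
    have e2 : w * (g ^ k * ((m : ℝ) ^ k * c₀ * N)) =
      ((m : ℝ) ^ k * g ^ k) * (c₀ * (N * w)) := by ring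
    rw [e1, e2]
    exact mul_le_mul_of_nonneg_left h9 (by positivity)
  linarith

/-- the mean of the truncated and normalised counts, in every interval of length `T ^ h` -/
theorem mean_trS {h e : ℝ} (hh : 0 < h) (hh1 : h ≤ 1) (hp : 0 < 2 - H295Iso.c0 h)
    (he0 : 0 < e) (he1 : e ≤ 1) (hep : e ≤ 2 - H295Iso.c0 h) : ∃ g : ℝ, 0 < g ∧
    ∀ F : ℂ → ℂ, GoodL F → ∃ T₀ : ℝ, 10 ≤ T₀ ∧ ∀ T : ℝ, T₀ ≤ T →
      ∀ H : ℝ, T ^ h ≤ H → H ≤ T →
      (2 - H295Iso.c0 h - 2 * e) * g / ((1 + e) * (h * g)) * H ≤ ∫ t in T..(T + H),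
        tr F ((1 + e) * (h * g)) (g * (2 * Real.pi / Real.log T)) (T / 2) (3 * T) t := by
  classical
  have hpi := Real.pi_pos
  set p : ℝ := 2 - H295Iso.c0 h with hpdef
  obtain ⟨g, hg0, d, hd0, hdh, hcore⟩ := Pool.Agent.Y763.PS.avg_every hh hh1 he0 he1
  refine ⟨g, hg0, fun F hF => ?_⟩
  obtain ⟨T1, hT1, hT1'⟩ := hcore F hF
  set W : ℝ := 2 * Real.pi * g with hW
  have hW0 : 0 < W := by positivity
  have ev1 : ∀ᶠ T : ℝ in atTop, 2 ≤ T ^ d := (tendsto_rpow_atTop hd0).eventually_ge_atTop 2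
  have ev2 : ∀ᶠ T : ℝ in atTop, W * (2 + p / e) ≤ T ^ h :=
    (tendsto_rpow_atTop hh).eventually_ge_atTop _
  obtain ⟨T3, hT3⟩ := (ev1.and ev2).exists_forall_of_atTop
  refine ⟨max 10 (max (max T1 T3) W), le_max_left _ _, fun T hT H hH1 hH2 => ?_⟩
  have hT10 : 10 ≤ T := (le_max_left _ _).trans hT
  have hTT1 : T1 ≤ T := ((le_max_left _ _).trans ((le_max_left _ _).trans (le_max_right _ _))).trans hT
  have hTT3 := hT3 T (((le_max_right _ _).trans ((le_max_left _ _).trans (le_max_right _ _))).trans hT)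
  have hTW : W ≤ T := ((le_max_right _ _).trans (le_max_right _ _)).trans hT
  have hT0 : 0 < T := by linarith
  have hlog1 : 1 ≤ Real.log T := by
    rw [Real.le_log_iff_exp_le hT0]
    have := Real.exp_one_lt_d9
    linarith
  have hlog : 0 < Real.log T := by linarith
  set w : ℝ := g * (2 * Real.pi / Real.log T) with hw
  have hw0 : 0 < w := by positivity
  have hwW : w ≤ W := by
    rw [hw, hW]
    have : 2 * Real.pi / Real.log T ≤ 2 * Real.pi := div_le_self (by positivity) hlog1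
    calc g * (2 * Real.pi / Real.log T) ≤ g * (2 * Real.pi) :=
          mul_le_mul_of_nonneg_left this hg0.le
      _ = 2 * Real.pi * g := by ring
  have hTp : 0 < T ^ h := Real.rpow_pos_of_pos hT0 _
  have hH0 : 0 < H := hTp.trans_le hH1
  have hW1 : W ≤ 1 / 2 * T ^ h := by
    have h1 : 0 ≤ W * (p / e) := by positivity
    have h2 := hTT3.2
    have h3 : W * (2 + p / e) = 2 * W + W * (p / e) := by ring
    linarith
  have hW2 : p * W ≤ e * H := by
    have h2 := hTT3.2
    have h3 : W * (p / e) ≤ T ^ h := by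
      have h4 : W * (2 + p / e) = 2 * W + W * (p / e) := by ring
      linarith
    have h5 : W * (p / e) = (p * W) / e := by ring
    rw [h5, div_le_iff₀ he0] at h3
    have h6 : T ^ h * e ≤ H * e := mul_le_mul_of_nonneg_right hH1 he0.le
    linarith
  have hTd : T ^ (h - d) * 2 ≤ T ^ h := by
    have e1 : T ^ h = T ^ (h - d) * T ^ d := by
      rw [← Real.rpow_add hT0]; congr 1; ring
    rw [e1]
    exact mul_le_mul_of_nonneg_left hTT3.1 (Real.rpow_nonneg hT0.le _)
  have hTd' : T ≤ T ^ (1 + d) := by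
    conv_lhs => rw [← Real.rpow_one T]
    exact Real.rpow_le_rpow_of_exponent_le (by linarith) (by linarith)
  -- the number of windows
  set N : ℕ := ⌊H / w⌋₊ with hN
  have hN1 : (N : ℝ) * w ≤ H := by
    have := Nat.floor_le (div_nonneg hH0.le hw0.le)
    rwa [← hN, le_div_iff₀ hw0] at this
  have hN2 : H - w < N * w := by
    have := Nat.lt_floor_add_one (H / w)
    rw [← hN, div_lt_iff₀ hw0] at this
    linarith
  have hN3 : T ^ (h - d) ≤ N * w := by linarith
  set K : ℝ := (1 + e) * (h * g) with hK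
  have hK0 : 0 < K := by positivity
  set φ : ℝ → ℝ := tr F K w (T / 2) (3 * T) with hφ
  have hφm : Measurable φ := tr_meas hF (by linarith)
  have hφb : ∀ t, 0 ≤ φ t ∧ φ t ≤ 1 := fun t => tr_bdd F hK0 t
  have hii : ∀ A B, IntervalIntegrable φ volume A B := fun A B =>
    Pool.Agent.V1161.VC.ii_bdd hφm hφb A B
  have hpt : ∀ s ∈ Set.Icc (0 : ℝ) w, (p - e) * g / K * N ≤
      ∑ j ∈ Finset.range N, φ (T + j * w + s) := by
    intro s hs
    have h1 := hT1' T hTT1 s hs.1 (by linarith [hs.2]) N hN3 (hN1.trans hH2)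
    have h2 : ∑ j ∈ Finset.range N, φ (T + j * w + s) = (∑ j ∈ Finset.range N,
        min (cnt F (T + s + j * (g * (2 * Real.pi / Real.log T)))
          (T + s + (j + 1) * (g * (2 * Real.pi / Real.log T))) : ℝ) K) / K := by
      rw [Finset.sum_div]
      apply Finset.sum_congr rfl
      intro j hj
      have hjN : ((j : ℝ) + 1) * w ≤ N * w := by
        apply mul_le_mul_of_nonneg_right _ hw0.le
        exact_mod_cast Finset.mem_range.1 hj
      have hj0 : 0 ≤ (j : ℝ) * w := by positivity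
      have hjN' : ((j : ℝ) + 1) * w = j * w + w := by ring
      have hmem : T + j * w + s ∈ Set.Icc (T / 2) (3 * T) := by
        constructor
        · linarith [hs.1]
        · linarith [hs.2]
      simp only [hφ, tr]
      rw [Set.indicator_of_mem hmem]
      have e1 : T + s + j * w = T + j * w + s := by ring
      have e2 : T + s + (j + 1) * w = T + j * w + s + w := by ring
      rw [← hw, e1, e2]
    rw [h2, le_div_iff₀ hK0]
    have h3 : (p - e) * g / K * N * K = (p - e) * (g * N) := by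
      rw [div_mul_eq_mul_div, div_mul_cancel₀ _ hK0.ne']; ring
    rw [h3]
    exact h1
  have hsplit : ∑ j ∈ Finset.range N, ∫ s in (0 : ℝ)..w, φ (T + j * w + s) =
      ∫ t in T..(T + N * w), φ t := by
    have h1 := intervalIntegral.sum_integral_adjacent_intervals (f := φ) (μ := volume)
      (a := fun j : ℕ => T + j * w) (n := N) (fun j _ => hii _ _)
    simp only [Nat.cast_zero, zero_mul, add_zero] at h1
    rw [← h1]
    apply Finset.sum_congr rfl
    intro j _
    rw [intervalIntegral.integral_comp_add_left]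
    congr 1
    · ring
    · push_cast; ring
  have hii' : ∀ j : ℕ, IntervalIntegrable (fun s => φ (T + j * w + s)) volume 0 w := fun j =>
    Pool.Agent.V1161.VC.ii_bdd (hφm.comp (measurable_const_add _)) (fun t => hφb _) _ _
  have h1 : (p - e) * g / K * N * w ≤ ∫ t in T..(T + N * w), φ t := by
    rw [← hsplit, ← intervalIntegral.integral_finsetSum (fun j _ => hii' j)]
    have h2 : ∫ _s in (0 : ℝ)..w, (p - e) * g / K * N ≤
        ∫ s in (0 : ℝ)..w, ∑ j ∈ Finset.range N, φ (T + j * w + s) := by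
      apply intervalIntegral.integral_mono_on hw0.le
      · exact intervalIntegrable_const
      · exact ii_sum _ _ (fun j _ => hii' j)
      · exact hpt
    rw [intervalIntegral.integral_const, sub_zero, smul_eq_mul, mul_comm] at h2
    exact h2
  have h3 : ∫ t in T..(T + N * w), φ t ≤ ∫ t in T..(T + H), φ t := by
    rw [← intervalIntegral.integral_add_adjacent_intervals (hii T (T + N * w)) (hii (T + N * w) (T + H))]
    have h4 : 0 ≤ ∫ t in (T + N * w)..(T + H), φ t :=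
      intervalIntegral.integral_nonneg (by linarith) fun t _ => (hφb t).1
    linarith
  refine le_trans ?_ (h1.trans h3)
  have h5 : (p - e) * (H - w) ≤ (p - e) * (N * w) :=
    mul_le_mul_of_nonneg_left hN2.le (by linarith)
  have h6 : (p - e) * w ≤ p * W := mul_le_mul (by linarith) hwW hw0.le hp.le
  have h7 : (p - 2 * e) * H ≤ (p - e) * (N * w) := by
    have : (p - 2 * e) * H = (p - e) * (H - w) + (p - e) * w - e * H := by ring
    linarith
  have h8 : (p - 2 * e) * g / K * H = (p - 2 * e) * H * (g / K) := by ring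
  have h9 : (p - e) * g / K * N * w = (p - e) * (N * w) * (g / K) := by ring
  rw [h8, h9]
  exact mul_le_mul_of_nonneg_right h7 (by positivity)

/-- correlations at polynomial shifts, in every interval of length `T ^ h` -/
theorem polywS (d : ℕ) {h ε : ℝ} (hh : 0 < h) (hh1 : h ≤ 1) (hp : 0 < 2 - H295Iso.c0 h)
    (hε : 0 < ε) : ∃ (N : ℕ) (g c : ℝ), 1 ≤ N ∧ 0 < g ∧ 0 < c ∧
    ∀ F : ℂ → ℂ, GoodL F → ∃ T₀ : ℝ, 10 ≤ T₀ ∧ ∀ T : ℝ, T₀ ≤ T →
      ∀ H : ℝ, T ^ h ≤ H → H ≤ T →
      ∀ β : Fin d → ℝ, (∀ r, |β r| ≤ c * H) → ∃ n : ℕ, 1 ≤ n ∧ n ≤ N ∧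
        ((2 - H295Iso.c0 h) ^ 2 - ε) * (g ^ 2 * H) ≤ ∫ t in T..(T + H),
          (cnt F t (t + g * (2 * Real.pi / Real.log T)) : ℝ) *
          (cnt F (t + ∑ r, β r * (n : ℝ) ^ ((r : ℕ) + 1))
            (t + (∑ r, β r * (n : ℝ) ^ ((r : ℕ) + 1)) + g * (2 * Real.pi / Real.log T)) : ℝ) := by
  classical
  have hpi := Real.pi_pos
  set p : ℝ := 2 - H295Iso.c0 h with hpdef
  obtain ⟨e, he0, he1, hep, heq⟩ : ∃ e : ℝ, 0 < e ∧ e ≤ 1 / 8 ∧ 2 * e ≤ p ∧
      p ^ 2 - ε / 2 ≤ (p - 2 * e) ^ 2 := by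
    have hc : ContinuousAt (fun x : ℝ => (p - 2 * x) ^ 2) 0 := by fun_prop
    have h0 : (fun x : ℝ => (p - 2 * x) ^ 2) 0 = p ^ 2 := by simp
    have h1 : ∀ᶠ x in 𝓝 (0 : ℝ), p ^ 2 - ε / 2 < (p - 2 * x) ^ 2 := by
      apply hc.eventually (lt_mem_nhds _)
      rw [h0]; linarith
    rw [Metric.eventually_nhds_iff] at h1
    obtain ⟨ρ, hρ0, hρ⟩ := h1
    refine ⟨min (min (ρ / 2) (1 / 8)) (p / 2), by positivity,
      (min_le_left _ _).trans (min_le_right _ _), ?_, (hρ ?_).le⟩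
    · have := min_le_right (min (ρ / 2) (1 / 8)) (p / 2)
      linarith
    · rw [Real.dist_eq, sub_zero, abs_of_pos (by positivity)]
      exact ((min_le_left _ _).trans (min_le_left _ _)).trans_lt (by linarith)
  obtain ⟨g, hg0, h5⟩ := mean_trS hh hh1 hp he0 (by linarith) (by linarith)
  obtain ⟨N, c, hN, hc, h6⟩ := Pool.Agent.V1161.VC.real_poly d (ε := ε / 8) (by positivity)
  set c' : ℝ := min c (1 / (2 * (d * (N : ℝ) ^ (d + 1) + 1))) with hc'
  have hc'0 : 0 < c' := lt_min hc (by positivity)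
  refine ⟨N, g, c', hN, hg0, hc'0, fun F hF => ?_⟩
  obtain ⟨T₀, hT₀, h7⟩ := h5 F hF
  refine ⟨T₀, hT₀, fun T hT H hH1 hH2 β hβ => ?_⟩
  have hT10 : 10 ≤ T := hT₀.trans hT
  have hH0 : 0 < H := (Real.rpow_pos_of_pos (by linarith) _).trans_le hH1
  set K : ℝ := (1 + e) * (h * g) with hK
  have hK0 : 0 < K := by positivity
  have hK2 : K ≤ 2 * g := by
    have h1 : (1 + e) * h ≤ 2 := by nlinarith
    calc K = ((1 + e) * h) * g := by rw [hK]; ring
      _ ≤ 2 * g := mul_le_mul_of_nonneg_right h1 hg0.le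
  set w : ℝ := g * (2 * Real.pi / Real.log T) with hw
  set φ : ℝ → ℝ := tr F K w (T / 2) (3 * T) with hφ
  have hφm : Measurable φ := tr_meas hF (by linarith)
  have hφb : ∀ t, 0 ≤ φ t ∧ φ t ≤ 1 := fun t => tr_bdd F hK0 t
  obtain ⟨n, hn1, hn2, h8⟩ := h6 T H hH0 φ hφm hφb β
    (fun r => (hβ r).trans (mul_le_mul_of_nonneg_right (min_le_left _ _) hH0.le))
  refine ⟨n, hn1, hn2, ?_⟩
  set S : ℝ := ∑ r, β r * (n : ℝ) ^ ((r : ℕ) + 1) with hS
  have hSabs : |S| ≤ T / 2 := by
    calc |S| ≤ ∑ r, |β r * (n : ℝ) ^ ((r : ℕ) + 1)| := Finset.abs_sum_le_sum_abs _ _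
      _ ≤ ∑ _r : Fin d, (c' * H) * (N : ℝ) ^ (d + 1) := by
          apply Finset.sum_le_sum
          intro r _
          rw [abs_mul, abs_pow, Nat.abs_cast]
          apply mul_le_mul (hβ r) _ (by positivity) (by positivity)
          have h9 : n ^ ((r : ℕ) + 1) ≤ N ^ (d + 1) :=
            (Nat.pow_le_pow_left hn2 _).trans (Nat.pow_le_pow_right hN (by omega))
          exact_mod_cast h9
      _ = (d * (N : ℝ) ^ (d + 1)) * c' * H := by
          rw [Finset.sum_const, Finset.card_univ, Fintype.card_fin, nsmul_eq_mul]; ring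
      _ ≤ 1 / 2 * H := by
          apply mul_le_mul_of_nonneg_right _ hH0.le
          have h9 : c' ≤ 1 / (2 * (d * (N : ℝ) ^ (d + 1) + 1)) := min_le_right _ _
          rw [le_div_iff₀ (by positivity)] at h9
          nlinarith
      _ ≤ T / 2 := by linarith
  have hq := h7 T hT H hH1 hH2
  set μ : ℝ := (∫ t in T..(T + H), φ t) / H with hμdef
  have hμ : (p - 2 * e) * g / K ≤ μ := by
    rw [hμdef, le_div_iff₀ hH0]
    exact hq
  have hμ2 : (p - 2 * e) * g ≤ K * μ := by
    rw [div_le_iff₀ hK0] at hμ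
    linarith
  have hsq : ((p - 2 * e) * g) ^ 2 ≤ (K * μ) ^ 2 :=
    pow_le_pow_left₀ (mul_nonneg (by linarith) hg0.le) hμ2 2
  have hK4 : K ^ 2 ≤ 4 * g ^ 2 := by
    have : K ^ 2 ≤ (2 * g) ^ 2 := pow_le_pow_left₀ hK0.le hK2 2
    linarith [this, (by ring : (2 * g) ^ 2 = 4 * g ^ 2)]
  have hlow : (p ^ 2 - ε) * g ^ 2 * H ≤ K ^ 2 * ∫ t in T..(T + H), φ t * φ (t + S) := by
    have h9 : K ^ 2 * ((μ ^ 2 - ε / 8) * H) ≤ K ^ 2 * ∫ t in T..(T + H), φ t * φ (t + S) :=
      mul_le_mul_of_nonneg_left h8 (by positivity)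
    refine le_trans ?_ h9
    have h10 : K ^ 2 * ((μ ^ 2 - ε / 8) * H) = ((K * μ) ^ 2 - K ^ 2 * (ε / 8)) * H := by ring
    rw [h10]
    apply mul_le_mul_of_nonneg_right _ hH0.le
    have h11 : K ^ 2 * (ε / 8) ≤ 4 * g ^ 2 * (ε / 8) :=
      mul_le_mul_of_nonneg_right hK4 (by positivity)
    have h12 : (p ^ 2 - ε / 2) * g ^ 2 ≤ (p - 2 * e) ^ 2 * g ^ 2 :=
      mul_le_mul_of_nonneg_right heq (by positivity)
    have h13 : ((p - 2 * e) * g) ^ 2 = (p - 2 * e) ^ 2 * g ^ 2 := by ring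
    have h14 : (p ^ 2 - ε) * g ^ 2 = (p ^ 2 - ε / 2) * g ^ 2 - 4 * g ^ 2 * (ε / 8) := by ring
    rw [h14]
    linarith
  -- comparison with the counts
  have hci : IntervalIntegrable (fun t => (cnt F t (t + w) : ℝ) * (cnt F (t + S) (t + S + w) : ℝ))
      volume T (T + H) := by
    have h9 := prod_int (k := 2) (F := fun _ => F) (fun _ => hF) (A := T) (B := T + H) (w := w)
      (b := ![0, S]) (by
        intro i
        fin_cases i
        · simp; linarith
        · simp; linarith [(abs_le.1 hSabs).1]) (by linarith)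
    simp only [Fin.prod_univ_two, Matrix.cons_val_zero, Matrix.cons_val_one, add_zero] at h9
    exact h9
  have hmono : ∫ t in T..(T + H), φ t * φ (t + S) ≤
      ∫ t in T..(T + H), (1 / K ^ 2) * ((cnt F t (t + w) : ℝ) * (cnt F (t + S) (t + S + w) : ℝ)) := by
    apply intervalIntegral.integral_mono_on (by linarith)
    · exact Pool.Agent.V1161.VC.ii_bdd (hφm.mul (hφm.comp (measurable_add_const S)))
        (fun t => ⟨mul_nonneg (hφb _).1 (hφb _).1, mul_le_one₀ (hφb _).2 (hφb _).1 (hφb _).2⟩) _ _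
    · exact hci.const_mul _
    · intro t _
      calc φ t * φ (t + S) ≤ (cnt F t (t + w) : ℝ) / K * ((cnt F (t + S) (t + S + w) : ℝ) / K) :=
            mul_le_mul (tr_le F hK0 t) (tr_le F hK0 (t + S)) (hφb _).1
              (div_nonneg (Nat.cast_nonneg _) hK0.le)
        _ = _ := by field_simp
  rw [intervalIntegral.integral_const_mul] at hmono
  have h10 : K ^ 2 * (∫ t in T..(T + H), φ t * φ (t + S)) ≤
      ∫ t in T..(T + H), ((cnt F t (t + w) : ℝ) * (cnt F (t + S) (t + S + w) : ℝ)) := by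
    have h11 := mul_le_mul_of_nonneg_left hmono (by positivity : 0 ≤ K ^ 2)
    rwa [← mul_assoc, mul_one_div_cancel (by positivity), one_mul] at h11
  calc (p ^ 2 - ε) * (g ^ 2 * H) = (p ^ 2 - ε) * g ^ 2 * H := by ring
    _ ≤ _ := hlow.trans h10

end Pool.Agent.Helper271.ShortShift
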